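import Pool.Agent.MP_a550d9_nt.H38.Spec

/-! The mean square of the shifted difference of the fractional part of the exponential. -/

open MeasureTheory Set

namespace Pool.Agent.MP_a550d9_nt.H38

namespace DIFA

theorem fr_meas : Measurable fr := measurable_fract.comp Real.measurable_exp

theorem abs_le_one (x y : ℝ) : |fr x - fr y| ≤ 1 := by
  have h1 := Int.fract_nonneg (Real.exp x)
  have h2 := Int.fract_lt_one (Real.exp x)
  have h3 := Int.fract_nonneg (Real.exp y)
  have h4 := Int.fract_lt_one (Real.exp y)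
  unfold fr
  rw [abs_le]
  constructor <;> linarith

theorem sq_le_abs (x y : ℝ) : (fr x - fr y) ^ 2 ≤ |fr x - fr y| := by
  rw [← sq_abs]
  nlinarith [abs_le_one x y, abs_nonneg (fr x - fr y)]

theorem fr_neg {y : ℝ} (h : y < 0) : fr y = Real.exp y :=
  Int.fract_eq_self.2 ⟨(Real.exp_pos y).le, Real.exp_lt_one_iff.2 h⟩

/-- The normalised integer part. -/
noncomputable def hh (y : ℝ) : ℝ := 1 - fr y * Real.exp (-y)

theorem hh_meas : Measurable hh :=
  measurable_const.sub (fr_meas.mul (Real.measurable_exp.comp measurable_neg))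

theorem hh_eq (y : ℝ) : hh y = (⌊Real.exp y⌋ : ℝ) * Real.exp (-y) := by
  have h : Real.exp y * Real.exp (-y) = 1 := by rw [← Real.exp_add]; simp
  rw [hh, fr, Int.fract, sub_mul, h]; ring

theorem hh_nonneg (y : ℝ) : 0 ≤ hh y := by
  rw [hh_eq]
  exact mul_nonneg (Int.cast_nonneg_iff.2 (Int.floor_nonneg.2 (Real.exp_pos y).le))
    (Real.exp_pos _).le

theorem hh_le (y : ℝ) : hh y ≤ 1 :=
  sub_le_self _ (mul_nonneg (Int.fract_nonneg _) (Real.exp_pos _).le)

theorem hh_int (c a b : ℝ) : IntervalIntegrable (fun y => hh (y + c)) volume a b := by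
  refine (intervalIntegrable_const (c := (1 : ℝ))).mono_fun
    (hh_meas.comp (measurable_add_const c)).aestronglyMeasurable (ae_of_all _ fun y => ?_)
  simp only [Real.norm_eq_abs, abs_one, abs_of_nonneg (hh_nonneg _)]
  exact hh_le _

theorem hh_int' (a b : ℝ) : IntervalIntegrable hh volume a b := by
  simpa using hh_int 0 a b

theorem int_le {a b : ℝ} (h : a ≤ b) : ∫ y in a..b, hh y ≤ b - a := by
  have := intervalIntegral.integral_mono_on h (hh_int' a b)
    (intervalIntegrable_const (c := (1 : ℝ))) fun y _ => hh_le y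
  simpa using this

theorem int_shift {a b η : ℝ} (hη : 0 ≤ η) :
    ∫ y in a..b, hh (y + η) ≤ (∫ y in a..b, hh y) + η := by
  rw [intervalIntegral.integral_comp_add_right]
  have h1 := intervalIntegral.integral_add_adjacent_intervals (hh_int' a (a + η))
    (hh_int' (a + η) (b + η))
  have h2 := intervalIntegral.integral_add_adjacent_intervals (hh_int' a b) (hh_int' b (b + η))
  have h3 : 0 ≤ ∫ y in a..(a + η), hh y :=
    intervalIntegral.integral_nonneg (by linarith) fun y _ => hh_nonneg y
  have h4 := int_le (show b ≤ b + η by linarith)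
  linarith

theorem mid {η y : ℝ} (hη : 0 ≤ η) (h1 : Real.exp η - 1 ≤ 2 * η) :
    (fr (y + η) - fr y) ^ 2 * Real.exp (-y) ≤ 2 * η + (Real.exp η * hh (y + η) - hh y) := by
  have e0 := Real.exp_pos (-y)
  have e1 : Real.exp η * hh (y + η) = (⌊Real.exp (y + η)⌋ : ℝ) * Real.exp (-y) := by
    rw [hh_eq, mul_left_comm, ← Real.exp_add]; congr 2; ring
  have e2 : Real.exp y * Real.exp (-y) = 1 := by rw [← Real.exp_add]; simp
  have e3 : Real.exp y ≤ Real.exp (y + η) := Real.exp_le_exp.2 (by linarith)
  have e4 : (⌊Real.exp y⌋ : ℝ) ≤ ⌊Real.exp (y + η)⌋ := Int.cast_le.2 (Int.floor_le_floor e3)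
  have e5 : |fr (y + η) - fr y| ≤
      (Real.exp (y + η) - Real.exp y) + ((⌊Real.exp (y + η)⌋ : ℝ) - ⌊Real.exp y⌋) := by
    unfold fr Int.fract
    rw [abs_le]
    constructor <;> linarith
  have e6 : (Real.exp (y + η) - Real.exp y) * Real.exp (-y) = Real.exp η - 1 := by
    rw [Real.exp_add]; linear_combination (Real.exp η - 1) * e2
  have e7 := mul_le_mul_of_nonneg_right ((sq_le_abs _ _).trans e5) e0.le
  rw [e1, hh_eq]
  rw [add_mul, e6] at e7
  linarith

end DIFA

open DIFA in
theorem dif : DIF := by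
  refine ⟨1 + 8 * Real.exp 8, by positivity, fun η σ h0 h1 h2 h3 h4 => ?_⟩
  set b := Real.log (1 / η) with hb
  set F : ℝ → ℝ := fun y => ((fr (y + η) - fr y) * Real.exp (-σ * y)) ^ 2 with hF
  have hE := Real.exp_pos 8
  have hb2 : 2 ≤ b := by
    rw [hb, Real.le_log_iff_exp_le (by positivity), le_div_iff₀ h0]
    have h := Real.exp_one_lt_d9
    have h' : Real.exp 2 = Real.exp 1 * Real.exp 1 := by rw [← Real.exp_add]; norm_num
    have := Real.exp_pos 1
    nlinarith
  have heb : Real.exp (-b) = η := by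
    rw [hb, Real.exp_neg, Real.exp_log (by positivity)]; simp
  have hη : Real.exp η - 1 ≤ 2 * η := by
    have := Real.abs_exp_sub_one_le (x := η) (by rw [abs_of_pos h0]; linarith)
    rw [abs_of_pos h0] at this
    exact (le_abs_self _).trans this
  have hη0 : 0 ≤ Real.exp η - 1 := by linarith [Real.add_one_le_exp η]
  have hFm : Measurable F :=
    (((fr_meas.comp (measurable_add_const η)).sub fr_meas).mul
      (Real.measurable_exp.comp (measurable_const_mul _))).pow_const 2
  have hF0 : ∀ y, 0 ≤ F y := fun y => sq_nonneg _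
  have hFe : ∀ y, F y = (fr (y + η) - fr y) ^ 2 * Real.exp (-(2 * σ) * y) := fun y => by
    rw [hF]
    simp only [mul_pow, ← Real.exp_nat_mul]
    congr 2; push_cast; ring
  have key : ∀ (s : Set ℝ) (G : ℝ → ℝ), MeasurableSet s → IntegrableOn G s → (∀ y ∈ s, F y ≤ G y) →
      IntegrableOn F s ∧ ∫ y in s, F y ≤ ∫ y in s, G y := by
    intro s G hs hG h
    have hi : IntegrableOn F s := hG.mono' hFm.aestronglyMeasurable
      ((ae_restrict_iff' hs).2 (ae_of_all _ fun y hy => by
        rw [Real.norm_eq_abs, abs_of_nonneg (hF0 y)]; exact h y hy))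
    exact ⟨hi, setIntegral_mono_on hi hG hs h⟩
  obtain ⟨i1, j1⟩ := key (Iic (-1)) (fun y => 4 * η ^ 2 * Real.exp (1 / 2 * y)) measurableSet_Iic
    ((integrableOn_exp_mul_Iic (by norm_num) _).const_mul _) fun y hy => by
      have hy' : y ≤ -1 := hy
      rw [hFe, fr_neg (by linarith), fr_neg (by linarith), Real.exp_add]
      have e : (Real.exp y * Real.exp η - Real.exp y) ^ 2 * Real.exp (-(2 * σ) * y) =
          (Real.exp η - 1) ^ 2 * Real.exp ((2 - 2 * σ) * y) := by
        rw [show (2 - 2 * σ) * y = y + y + -(2 * σ) * y by ring, Real.exp_add, Real.exp_add]; ring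
      rw [e]
      exact mul_le_mul (by nlinarith) (Real.exp_le_exp.2 (by nlinarith)) (Real.exp_pos _).le
        (by positivity)
  obtain ⟨i3, j3⟩ := key (Ioi b) (fun y => Real.exp (-(2 * σ) * y)) measurableSet_Ioi
    (integrableOn_exp_mul_Ioi (by linarith) _) fun y _ => by
      rw [hFe]
      exact mul_le_of_le_one_left (Real.exp_pos _).le ((sq_le_abs _ _).trans (abs_le_one _ _))
  have hG : IntervalIntegrable
      (fun y => Real.exp 8 * (2 * η + (Real.exp η * hh (y + η) - hh y))) volume (-1) b :=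
    (intervalIntegrable_const.add (((hh_int η _ _).const_mul _).sub (hh_int' _ _))).const_mul _
  have hb1 : -1 ≤ b := by linarith
  obtain ⟨i2, j2⟩ := key (Ioc (-1) b) _ measurableSet_Ioc hG.1 fun y hy => by
    have e1 : Real.exp (-(2 * σ) * y) ≤ Real.exp 8 * Real.exp (-y) := by
      rw [← Real.exp_add, Real.exp_le_exp]
      have a1 : |y| ≤ b := abs_le.2 ⟨by linarith [hy.1], hy.2⟩
      have a2 : |(σ - 1 / 2) * y| ≤ 4 := by
        rw [abs_mul]
        exact (mul_le_mul_of_nonneg_left a1 (abs_nonneg _)).trans h4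
      have := (abs_le.1 a2).1
      linarith
    rw [hFe]
    refine (mul_le_mul_of_nonneg_left e1 (sq_nonneg _)).trans ?_
    rw [mul_left_comm]
    exact mul_le_mul_of_nonneg_left (mid h0.le hη) hE.le
  have i12 : IntegrableOn F (Iic b) := by
    rw [← Iic_union_Ioc_eq_Iic hb1]; exact i1.union i2
  refine ⟨by rw [← integrableOn_univ, ← Iic_union_Ioi (a := b)]; exact i12.union i3, ?_⟩
  rw [← intervalIntegral.integral_Iic_add_Ioi i12 i3, ← Iic_union_Ioc_eq_Iic hb1,
    setIntegral_union (Iic_disjoint_Ioc le_rfl) measurableSet_Ioc i1 i2]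
  rw [integral_const_mul, integral_exp_mul_Iic (by norm_num)] at j1
  rw [integral_exp_mul_Ioi (by linarith)] at j3
  rw [← intervalIntegral.integral_of_le (f := fun y => Real.exp 8 *
      (2 * η + (Real.exp η * hh (y + η) - hh y))) hb1, intervalIntegral.integral_const_mul,
    intervalIntegral.integral_add intervalIntegrable_const
      (((hh_int η _ _).const_mul _).sub (hh_int' _ _)),
    intervalIntegral.integral_sub ((hh_int η _ _).const_mul _) (hh_int' _ _),
    intervalIntegral.integral_const, intervalIntegral.integral_const_mul] at j2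
  have k1 : 4 * η ^ 2 * (Real.exp (1 / 2 * -1) / (1 / 2)) ≤ η * b := by
    have : Real.exp (1 / 2 * -1) ≤ 1 := Real.exp_le_one_iff.2 (by norm_num)
    nlinarith [mul_pos h0 h0]
  have k3 : -Real.exp (-(2 * σ) * b) / -(2 * σ) ≤ Real.exp 8 * (η * b) := by
    have e1 : Real.exp (-(2 * σ) * b) ≤ Real.exp 8 * η := by
      rw [← heb, ← Real.exp_add, Real.exp_le_exp]
      have := mul_le_mul_of_nonneg_right (neg_abs_le (σ - 1 / 2)) (show 0 ≤ b by linarith)
      linarith
    rw [neg_div_neg_eq, div_le_iff₀ (by linarith)]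
    have e2 : 1 ≤ b * (2 * σ) := by nlinarith
    nlinarith [mul_pos hE h0]
  have k2 : (b - -1) • (2 * η) + (Real.exp η * (∫ y in (-1)..b, hh (y + η)) -
      ∫ y in (-1)..b, hh y) ≤ 7 * (η * b) := by
    have a1 := mul_le_mul_of_nonneg_left (int_shift (a := -1) (b := b) h0.le) (Real.exp_pos η).le
    have a2 := int_le hb1
    have a3 : 0 ≤ ∫ y in (-1)..b, hh y :=
      intervalIntegral.integral_nonneg hb1 fun y _ => hh_nonneg y
    have a4 := mul_le_mul hη a2 a3 (by linarith)
    rw [smul_eq_mul]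
    nlinarith
  have k2' := mul_le_mul_of_nonneg_left k2 hE.le
  linarith

end Pool.Agent.MP_a550d9_nt.H38
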