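import Pool.Agent.MP_a550d9_nt.H38.Spec

/-! Derivatives at the zeros in a disc are bounded by a mean square on a larger circle. -/

open Complex MeasureTheory Metric

namespace Pool.Agent.MP_a550d9_nt.H38

namespace DISCA

theorem mean {f : ℂ → ℂ} (hf : Differentiable ℂ f) (c : ℂ) {R : ℝ} (hR : 0 < R) {z : ℂ}
    (hz : ‖z - c‖ ≤ R) : Real.pi * ‖f z‖ ^ 2 ≤
      ∫ θ in (0 : ℝ)..2 * Real.pi, ‖f (circleMap c (2 * R) θ)‖ ^ 2 := by
  have h1 := (hf.pow 2).diffContOnCl.circleIntegral_sub_inv_smul (c := c) (R := 2 * R) (w := z)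
    (by rw [mem_ball_iff_norm]; linarith)
  have hc : Continuous fun θ => ‖f (circleMap c (2 * R) θ)‖ ^ 2 :=
    (hf.continuous.comp (continuous_circleMap _ _)).norm.pow 2
  have h2 : ‖∮ w in C(c, 2 * R), (w - z)⁻¹ • (f ^ 2) w‖ ≤
      ∫ θ in (0 : ℝ)..2 * Real.pi, 2 * ‖f (circleMap c (2 * R) θ)‖ ^ 2 := by
    refine intervalIntegral.norm_integral_le_of_norm_le (by positivity)
      (Filter.Eventually.of_forall fun θ _ => ?_) ((hc.const_mul 2).intervalIntegrable _ _)
    have a1 : ‖circleMap c (2 * R) θ - c‖ = 2 * R := by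
      rw [circleMap_sub_center, norm_circleMap_zero, abs_of_pos (by positivity)]
    have a2 : R ≤ ‖circleMap c (2 * R) θ - z‖ := by
      have := norm_sub_le_norm_sub_add_norm_sub (circleMap c (2 * R) θ) z c
      linarith
    rw [norm_smul, norm_smul, deriv_circleMap, norm_mul, norm_I, norm_circleMap_zero,
      abs_of_pos (by positivity), mul_one, norm_inv, Pi.pow_apply, norm_pow, ← mul_assoc]
    gcongr
    rw [mul_inv_le_iff₀ (by linarith)]
    linarith
  rw [h1, intervalIntegral.integral_const_mul, norm_smul, Pi.pow_apply, norm_pow] at h2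
  have h3 : ‖(2 * Real.pi * I : ℂ)‖ = 2 * Real.pi := by simp [abs_of_pos Real.pi_pos]
  rw [h3] at h2
  linarith

theorem der (c a : ℂ) {R : ℝ} (hR : 0 < R) (ha : ‖a - c‖ ≤ R / 4) (W : Finset ℂ) :
    ∀ (f : ℂ → ℂ) (M : ℝ), Differentiable ℂ f → (∀ z ∈ sphere c R, ‖f z‖ ≤ M) → f a = 0 →
      a ∉ W → (∀ v ∈ W, f v = 0 ∧ ‖v - c‖ ≤ R / 4) →
      ‖deriv f a‖ ≤ M / (3 * R / 4) * (2 / 3) ^ W.card := by
  induction W using Finset.induction_on with
  | empty =>
    intro f M hf hM _ _ _
    rw [Finset.card_empty, pow_zero, mul_one]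
    refine norm_deriv_le_of_forall_mem_sphere_norm_le (by positivity) hf.diffContOnCl
      fun z hz => ?_
    refine norm_le_of_forall_mem_frontier_norm_le (U := ball c R) isBounded_ball hf.diffContOnCl
      (by rwa [frontier_ball c hR.ne']) ?_
    rw [closure_ball c hR.ne', mem_closedBall_iff_norm]
    rw [mem_sphere_iff_norm] at hz
    have := norm_sub_le_norm_sub_add_norm_sub z a c
    linarith
  | insert v W hv ih =>
    intro f M hf hM hfa haW hW
    obtain ⟨hfv, hvc⟩ := hW v (Finset.mem_insert_self _ _)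
    rw [Finset.mem_insert, not_or] at haW
    have hg : Differentiable ℂ (dslope f v) :=
      differentiableOn_univ.mp ((differentiableOn_dslope Filter.univ_mem).mpr
        hf.differentiableOn)
    have e : ∀ z, f z = (z - v) * dslope f v z := fun z => by
      have := sub_smul_dslope f v z
      rw [hfv, sub_zero, smul_eq_mul] at this
      exact this.symm
    have hz : ∀ z, z ≠ v → f z = 0 → dslope f v z = 0 := fun z h1 h2 => by
      rw [e] at h2
      exact (mul_eq_zero.mp h2).resolve_left (sub_ne_zero.mpr h1)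
    have h1 := ih (dslope f v) (M / (3 * R / 4)) hg (fun z hz => by
      rw [le_div_iff₀ (by positivity)]
      have a1 := hM z hz
      rw [e, norm_mul] at a1
      rw [mem_sphere_iff_norm] at hz
      have a2 := norm_sub_le_norm_sub_add_norm_sub z v c
      nlinarith [norm_nonneg (dslope f v z)]) (hz a haW.1 hfa) haW.2 fun w hw =>
        ⟨hz w (fun h => hv (h ▸ hw)) (hW w (Finset.mem_insert_of_mem hw)).1,
          (hW w (Finset.mem_insert_of_mem hw)).2⟩
    have h2 : deriv f a = (a - v) * deriv (dslope f v) a := by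
      have : HasDerivAt (fun z => (z - v) * dslope f v z)
          (1 * dslope f v a + (a - v) * deriv (dslope f v) a) a :=
        ((hasDerivAt_id a).sub_const v).mul (hg a).hasDerivAt
      rw [← funext e, hz a haW.1 hfa, mul_zero, zero_add] at this
      exact this.deriv
    have h3 : ‖a - v‖ ≤ R / 2 := by
      have := norm_sub_le_norm_sub_add_norm_sub a c v
      rw [norm_sub_rev c v] at this
      linarith
    rw [h2, norm_mul, Finset.card_insert_of_notMem hv]
    refine (mul_le_mul h3 h1 (norm_nonneg _) (by positivity)).trans (le_of_eq ?_)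
    field_simp
    ring

theorem cnt (n : ℕ) : ((n + 1 : ℕ) : ℝ) * (4 / 9) ^ n ≤ 1 := by
  induction n with
  | zero => simp
  | succ n ih =>
    have : (0 : ℝ) ≤ (4 / 9) ^ n := by positivity
    have h : (0 : ℝ) ≤ n := n.cast_nonneg
    push_cast at ih ⊢
    rw [pow_succ]
    nlinarith

end DISCA

theorem disc : DISC := by
  intro f c R V hf hR hV
  set J := ∫ θ in (0 : ℝ)..2 * Real.pi, ‖f (circleMap c (2 * R) θ)‖ ^ 2 with hJ
  have hJ0 : 0 ≤ J := intervalIntegral.integral_nonneg (by positivity) fun _ _ => by positivity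
  rcases V.eq_empty_or_nonempty with rfl | hne
  · rw [Finset.sum_empty]; positivity
  obtain ⟨n, hn⟩ := Nat.exists_eq_succ_of_ne_zero (Finset.card_pos.mpr hne).ne'
  have hM : ∀ z ∈ sphere c R, ‖f z‖ ≤ √(J / 3) := fun z hz => by
    refine Real.le_sqrt_of_sq_le ?_
    have h1 := DISCA.mean hf c hR (mem_sphere_iff_norm.mp hz).le
    nlinarith [Real.pi_gt_three, sq_nonneg ‖f z‖]
  have h2 : ∀ v ∈ V, ‖deriv f v‖ ^ 2 ≤ 1 / R ^ 2 * J * (4 / 9) ^ n := fun v hv => by
    have h3 := DISCA.der c v hR (hV v hv).2 (V.erase v) f _ hf hM (hV v hv).1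
      (Finset.notMem_erase v V) fun w hw => hV w (Finset.mem_of_mem_erase hw)
    rw [Finset.card_erase_of_mem hv, hn, Nat.succ_sub_one] at h3
    refine (pow_le_pow_left₀ (norm_nonneg _) h3 2).trans ?_
    rw [mul_pow, div_pow, Real.sq_sqrt (by positivity), ← pow_mul, mul_comm n, pow_mul]
    rw [show ((2 / 3 : ℝ)) ^ 2 = 4 / 9 by norm_num]
    gcongr
    rw [div_le_iff₀ (by positivity)]
    have : 1 / R ^ 2 * J * (3 * R / 4) ^ 2 = 9 / 16 * J := by field_simp; ring
    linarith
  refine (Finset.sum_le_card_nsmul _ _ _ h2).trans ?_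
  rw [hn, nsmul_eq_mul, mul_left_comm]
  exact mul_le_of_le_one_right (by positivity) (DISCA.cnt n)

end Pool.Agent.MP_a550d9_nt.H38
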