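import Pool.Agent.MP_a550d9_nt.H38.Spec

/-! The near-relations of a dissociated set form a hypergraph with edges of size at least two. -/

namespace Pool.Agent.MP_a550d9_nt.H38

namespace EDGEA

/-- `g` is within `Δ` of a signed subset sum of `P`. -/
def Rep (P : Finset ℝ) (Δ g : ℝ) (Q : Finset ℝ × Finset ℝ) : Prop :=
  Q.1 ⊆ P ∧ Q.2 ⊆ P ∧ Disjoint Q.1 Q.2 ∧ |∑ p ∈ Q.1, p - ∑ p ∈ Q.2, p - g| < Δ

open Classical in
lemma sum_ind (P A : Finset ℝ) (h : A ⊆ P) :
    ∑ p ∈ P, (((if p ∈ A then 1 else 0 : ℤ) : ℝ)) * p = ∑ p ∈ A, p := by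
  have : ∀ p ∈ P, (((if p ∈ A then 1 else 0 : ℤ) : ℝ)) * p = if p ∈ A then p else 0 := by
    intro p _
    split_ifs <;> simp
  rw [Finset.sum_congr rfl this, ← Finset.sum_filter]
  congr 1
  ext p
  simp only [Finset.mem_filter]
  exact ⟨fun hp => hp.2, fun hp => ⟨h hp, hp⟩⟩

lemma uniq {P : Finset ℝ} {Δ g : ℝ} (hD : Dis P (2 * Δ)) {Q R : Finset ℝ × Finset ℝ}
    (hQ : Rep P Δ g Q) (hR : Rep P Δ g R) : Q = R := by
  classical
  obtain ⟨A, B⟩ := Q
  obtain ⟨C, D⟩ := R
  obtain ⟨hA, hB, hAB, h1⟩ := hQ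
  obtain ⟨hC, hDD, hCD, h2⟩ := hR
  simp only at hA hB hAB h1 hC hDD hCD h2
  set c : ℝ → ℤ := fun p => (if p ∈ A then 1 else 0) - (if p ∈ B then 1 else 0) -
    (if p ∈ C then 1 else 0) + (if p ∈ D then 1 else 0) with hc
  have hz : ∀ p ∈ P, c p = 0 := by
    by_contra hne
    push Not at hne
    have hb : ∀ p ∈ P, |c p| ≤ 2 := by
      intro p _
      simp only [hc]
      split_ifs <;> norm_num
    have h3 := hD c hb hne
    have h4 : ∑ p ∈ P, (c p : ℝ) * p =
        ∑ p ∈ A, p - ∑ p ∈ B, p - ∑ p ∈ C, p + ∑ p ∈ D, p := by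
      rw [← sum_ind P A hA, ← sum_ind P B hB, ← sum_ind P C hC, ← sum_ind P D hDD,
        ← Finset.sum_sub_distrib, ← Finset.sum_sub_distrib, ← Finset.sum_add_distrib]
      refine Finset.sum_congr rfl fun p _ => ?_
      simp only [hc]
      push_cast
      ring
    rw [h4] at h3
    rw [abs_lt] at h1 h2
    have : |∑ p ∈ A, p - ∑ p ∈ B, p - ∑ p ∈ C, p + ∑ p ∈ D, p| < 2 * Δ := by
      rw [abs_lt]
      constructor <;> linarith [h1.1, h1.2, h2.1, h2.2]
    linarith
  rw [Finset.disjoint_left] at hAB hCD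
  have e1 : A = C := by
    ext p
    constructor
    · intro hp
      have h5 := hz p (hA hp)
      have h6 := hAB hp
      by_contra h7
      simp only [hc, hp, h6, h7, if_true, if_false] at h5
      split_ifs at h5 <;> omega
    · intro hp
      have h5 := hz p (hC hp)
      have h6 := hCD hp
      by_contra h7
      simp only [hc, hp, h6, h7, if_true, if_false] at h5
      split_ifs at h5 <;> omega
  have e2 : B = D := by
    ext p
    constructor
    · intro hp
      have h5 := hz p (hB hp)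
      have h6 : p ∉ A := fun h => hAB h hp
      by_contra h7
      simp only [hc, hp, h6, h7, if_true, if_false] at h5
      split_ifs at h5 <;> omega
    · intro hp
      have h5 := hz p (hDD hp)
      have h6 : p ∉ C := fun h => hCD h hp
      by_contra h7
      simp only [hc, hp, h6, h7, if_true, if_false] at h5
      split_ifs at h5 <;> omega
  rw [e1, e2]

lemma size {P Z : Finset ℝ} {Δ g : ℝ} (hPZ : P ⊆ Z) (hpos : ∀ g ∈ Z, Δ ≤ g) (h0 : 0 < Δ)
    (hsp : ∀ g ∈ Z, ∀ g' ∈ Z, g ≠ g' → Δ ≤ |g - g'|) (hg : g ∈ Z) (hgP : g ∉ P)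
    {Q : Finset ℝ × Finset ℝ} (hQ : Rep P Δ g Q) : 2 ≤ (Q.1 ∪ Q.2).card := by
  classical
  obtain ⟨A, B⟩ := Q
  obtain ⟨hA, hB, hAB, h1⟩ := hQ
  simp only at hA hB hAB h1 ⊢
  rw [Finset.card_union_of_disjoint hAB]
  by_contra hlt
  have hg0 := hpos g hg
  have hA0 : A.card = 0 ∨ A.card = 1 := by omega
  rcases hA0 with hA0 | hA0
  · rw [Finset.card_eq_zero] at hA0
    subst hA0
    have hB0 : 0 ≤ ∑ p ∈ B, p :=
      Finset.sum_nonneg fun p hp => h0.le.trans (hpos p (hPZ (hB hp)))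
    rw [Finset.sum_empty, abs_lt] at h1
    linarith [h1.1]
  · have hB0 : B.card = 0 := by omega
    rw [Finset.card_eq_zero] at hB0
    subst hB0
    obtain ⟨a, rfl⟩ := Finset.card_eq_one.1 hA0
    have ha : a ∈ P := hA (Finset.mem_singleton_self a)
    have hne : a ≠ g := fun h => hgP (h ▸ ha)
    have := hsp a (hPZ ha) g hg hne
    rw [Finset.sum_empty, Finset.sum_singleton, sub_zero] at h1
    linarith

end EDGEA

open EDGEA in
theorem edge : EDGE := by
  classical
  intro P Z Δ h0 h1 hPZ hpos hsp hD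
  let E : Finset ℝ := Z.filter fun g => g ∉ P ∧ ∃ Q, Rep P Δ g Q
  let R : ℝ → Finset ℝ × Finset ℝ := fun g =>
    if h : ∃ Q, Rep P Δ g Q then h.choose else (∅, ∅)
  have hR : ∀ g, (∃ Q, Rep P Δ g Q) → Rep P Δ g (R g) := by
    intro g h
    simp only [R, dif_pos h]
    exact h.choose_spec
  let S : ℝ → Finset ℝ := fun g => (R g).1 ∪ (R g).2
  let t : ℝ → ℝ := fun g => if h : (S g).Nonempty then (S g).max' h else 0
  refine ⟨E, S, t, Finset.filter_subset _ _, ?_, ?_⟩
  · intro g hg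
    obtain ⟨hgZ, hgP, hex⟩ := Finset.mem_filter.1 hg
    have hr := hR g hex
    have hcard : 2 ≤ (S g).card := size hPZ hpos h0 hsp hgZ hgP hr
    have hne : (S g).Nonempty := Finset.card_pos.1 (by omega)
    have ht : t g = (S g).max' hne := by simp only [t, dif_pos hne]
    have hsub : S g ⊆ P := Finset.union_subset hr.1 hr.2.1
    refine ⟨hsub, ht ▸ Finset.max'_mem _ hne, hcard, ?_⟩
    have hB0 : 0 ≤ ∑ p ∈ (R g).2, p :=
      Finset.sum_nonneg fun p hp => h0.le.trans (hpos p (hPZ (hr.2.1 hp)))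
    have hA0 : ∑ p ∈ (R g).1, p ≤ ∑ p ∈ S g, p :=
      Finset.sum_le_sum_of_subset_of_nonneg Finset.subset_union_left
        fun p hp _ => h0.le.trans (hpos p (hPZ (hsub hp)))
    have hS : ∑ p ∈ S g, p ≤ (S g).card * t g := by
      have := Finset.sum_le_card_nsmul (S g) (fun p => p) (t g)
        (fun p hp => ht ▸ Finset.le_max' _ p hp)
      simpa [nsmul_eq_mul] using this
    have h2 := hr.2.2.2
    rw [abs_lt] at h2
    linarith [h2.1]
  · intro B hB hE P₁ P₂ hP₁ hP₂ hdis hne g hg hnot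
    by_contra hlt
    push Not at hlt
    have hrep : Rep P Δ g (P₁, P₂) := ⟨hP₁.trans hB, hP₂.trans hB, hdis, hlt⟩
    rcases hg with rfl | hg
    · have h2 : Rep P Δ 0 (∅, ∅) := ⟨by simp, by simp, by simp, by simpa using h0⟩
      have h3 := uniq hD hrep h2
      rw [Prod.mk.injEq] at h3
      rw [h3.1, h3.2] at hne
      simp at hne
    · by_cases hgP : g ∈ P
      · have h2 : Rep P Δ g ({g}, ∅) :=
          ⟨by simpa using hgP, by simp, by simp, by simpa using h0⟩
        have h3 := uniq hD hrep h2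
        rw [Prod.mk.injEq] at h3
        exact hnot h3
      · have hgE : g ∈ E := Finset.mem_filter.2 ⟨hg, hgP, _, hrep⟩
        have h3 := uniq hD (hR g ⟨_, hrep⟩) hrep
        apply hE g hgE
        simp only [S, h3]
        exact Finset.union_subset hP₁ hP₂

end Pool.Agent.MP_a550d9_nt.H38
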