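import Pool.Agent.MP_a550d9_nt.H38.Spec

/-!
A smoothed count of the zeros.
-/

namespace Pool.Agent.MP_a550d9_nt.H38

open H28

namespace EXSA

theorem summ : Summable fun m : ℕ => ((m : ℝ) + 1) ^ 2 * Real.exp (-(m / 2)) := by
  have h := ((summable_nat_add_iff 1).2
    (Real.summable_pow_mul_exp_neg_nat_mul 2 (r := 1 / 2) (by norm_num))).mul_right
    (Real.exp (1 / 2))
  refine h.congr fun m => ?_
  rw [mul_assoc, ← Real.exp_add]
  push_cast
  congr 2
  ring

end EXSA

theorem exs : EXS := by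
  intro C hC
  have hC0 := hC.pos
  have hS : 0 ≤ ∑' m : ℕ, ((m : ℝ) + 1) ^ 2 * Real.exp (-(m / 2)) :=
    tsum_nonneg fun m => by positivity
  refine ⟨C * (∑' m : ℕ, ((m : ℝ) + 1) ^ 2 * Real.exp (-(m / 2)) + 1), by positivity,
    fun X V hX hV => ?_⟩
  have hX0 : 0 < X := by linarith
  have hL : 1 ≤ Real.log X := by
    rw [Real.le_log_iff_exp_le hX0]
    linarith [Real.exp_one_lt_d9]
  rw [← Finset.sum_fiberwise_of_maps_to (g := fun g => ⌊g / X⌋₊)
    (t := V.image fun g => ⌊g / X⌋₊) fun g hg => Finset.mem_image_of_mem _ hg]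
  have key : ∀ m : ℕ, ∑ g ∈ V.filter (fun g => ⌊g / X⌋₊ = m), Real.exp (-(g / (2 * X))) ≤
      C * X * Real.log X * (((m : ℝ) + 1) ^ 2 * Real.exp (-(m / 2))) := by
    intro m
    have hm : (0 : ℝ) ≤ m := Nat.cast_nonneg m
    have h1 : ∀ g ∈ V.filter (fun g => ⌊g / X⌋₊ = m),
        Real.exp (-(g / (2 * X))) ≤ Real.exp (-(m / 2)) := by
      intro g hg
      obtain ⟨h2, h3⟩ := Finset.mem_filter.1 hg
      have h4 := Nat.floor_le (div_nonneg (hV g h2).2.le hX0.le)
      rw [h3] at h4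
      rw [Real.exp_le_exp, mul_comm 2, ← div_div]
      linarith
    have h2 : V.filter (fun g => ⌊g / X⌋₊ = m) ⊆ ZS ((m + 1) * X) := by
      intro g hg
      obtain ⟨h2, h3⟩ := Finset.mem_filter.1 hg
      have h4 := Nat.lt_floor_add_one (g / X)
      rw [h3, div_lt_iff₀ hX0] at h4
      exact mem_ZS.2 ⟨(hV g h2).1, by rw [abs_of_pos (hV g h2).2]; exact h4.le⟩
    have h3 := hC.card ((m + 1) * X) (by nlinarith)
    have h4 : Real.log ((m + 1) * X) ≤ (m + 1) * Real.log X := by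
      rw [Real.log_mul (by positivity) hX0.ne']
      have := Real.log_le_sub_one_of_pos (show (0 : ℝ) < m + 1 by positivity)
      nlinarith
    have h5 : ((V.filter fun g => ⌊g / X⌋₊ = m).card : ℝ) ≤
        C * ((m + 1) * X) * ((m + 1) * Real.log X) :=
      (Nat.cast_le.2 (Finset.card_le_card h2)).trans
        (h3.trans (mul_le_mul_of_nonneg_left h4 (by positivity)))
    refine (Finset.sum_le_card_nsmul _ _ _ h1).trans ?_
    rw [nsmul_eq_mul]
    exact (mul_le_mul_of_nonneg_right h5 (Real.exp_pos _).le).trans_eq (by ring)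
  refine (Finset.sum_le_sum fun m _ => key m).trans ?_
  rw [← Finset.mul_sum]
  have h6 := EXSA.summ.sum_le_tsum (V.image fun g => ⌊g / X⌋₊) fun m _ => by positivity
  have h7 : 0 ≤ C * X * Real.log X := by positivity
  nlinarith [mul_le_mul_of_nonneg_left h6 h7]

end Pool.Agent.MP_a550d9_nt.H38
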