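import Pool.Agent.MP_a550d9_nt.H28.Spec

/-!
Large values of the Mertens function from a dense independent set of ordinates:
definitions and the statements of the steps.
-/

open Complex MeasureTheory

namespace Pool.Agent.MP_a550d9_nt.H38

open H28

/-- Every nonzero combination of `P` with coefficients in `[-2, 2]` has size at least `Δ`. -/
def Dis (P : Finset ℝ) (Δ : ℝ) : Prop := ∀ c : ℝ → ℤ, (∀ p ∈ P, |c p| ≤ 2) → (∃ p ∈ P, c p ≠ 0) →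
  Δ ≤ |∑ p ∈ P, (c p : ℝ) * p|

/-- `P` has at least `δ 2 ^ j j` elements up to `2 ^ j`. -/
def Cum (P : Finset ℝ) (δ : ℝ) (j : ℕ) : Prop :=
  δ * 2 ^ j * j ≤ ((P.filter fun p => p ≤ 2 ^ j).card : ℝ)

/-- The hypothesis of the Riesz product inequality. -/
def Free (B Z : Finset ℝ) (Δ : ℝ) : Prop :=
  ∀ P₁ P₂ : Finset ℝ, P₁ ⊆ B → P₂ ⊆ B → Disjoint P₁ P₂ → (P₁ ∪ P₂).Nonempty → ∀ g : ℝ,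
    (g = 0 ∨ g ∈ Z) → ¬ (P₁ = {g} ∧ P₂ = ∅) → Δ ≤ |∑ p ∈ P₁, p - ∑ p ∈ P₂, p - g|

/-- The fractional part of `e ^ y`. -/
noncomputable def fr (y : ℝ) : ℝ := Int.fract (Real.exp y)

def MEL : Prop := ∀ s : ℂ, 1 / 4 < s.re → s.re < 1 →
  Integrable (fun y : ℝ => (fr y : ℂ) * exp (-s * y)) ∧
    ∫ y : ℝ, (fr y : ℂ) * exp (-s * y) = riemannZeta₁ s / (s * (1 - s))

def PLA : Prop := ∀ (F : ℝ → ℝ) (X : ℝ), 0 < X → Integrable F → Integrable (fun y => F y ^ 2) →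
  ∫ t in (-X)..X, ‖∫ y : ℝ, (F y : ℂ) * exp (-(I * t * y))‖ ^ 2 ≤ 11 * ∫ y, F y ^ 2

def DIF : Prop := ∃ C : ℝ, 0 < C ∧ ∀ η σ : ℝ, 0 < η → η ≤ 1 / 8 → 1 / 4 ≤ σ → σ ≤ 3 / 4 →
  |σ - 1 / 2| * Real.log (1 / η) ≤ 4 →
  Integrable (fun y => ((fr (y + η) - fr y) * Real.exp (-σ * y)) ^ 2) ∧
    ∫ y, ((fr (y + η) - fr y) * Real.exp (-σ * y)) ^ 2 ≤ C * η * Real.log (1 / η)

/-- Mean square near the critical line. -/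
def Msq : Prop := ∃ C X₀ : ℝ, 0 < C ∧ ∀ X y : ℝ, X₀ ≤ X → |y| ≤ 2 / Real.log X →
  ∫ t in (-X)..X, ‖z1 (t + y * I)‖ ^ 2 / (1 + t ^ 2) ≤ C * X * Real.log X

def MSQ : Prop := MEL → PLA → DIF → Msq

def DISC : Prop := ∀ (f : ℂ → ℂ) (c : ℂ) (R : ℝ) (V : Finset ℂ), Differentiable ℂ f → 0 < R →
  (∀ v ∈ V, f v = 0 ∧ ‖v - c‖ ≤ R / 4) →
  ∑ v ∈ V, ‖deriv f v‖ ^ 2 ≤ 1 / R ^ 2 * ∫ θ in (0 : ℝ)..2 * Real.pi, ‖f (circleMap c (2 * R) θ)‖ ^ 2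

/-- Second moment of the derivative at the zeros. -/
def Mom : Prop := ∃ C T₀ : ℝ, 0 < C ∧ ∀ T : ℝ, T₀ ≤ T →
  ∑ v ∈ ZS T, ‖deriv z1 v‖ ^ 2 / (1 + |v|) ^ 2 ≤ C * T * Real.log T ^ 4

def MOM : Prop := DISC → Msq → Mom

/-- Spacing of the zeros. -/
def Sep (K : ℝ) : Prop := 0 < K ∧ ∀ v w : ℝ, z1 v = 0 → z1 w = 0 → v ≠ w →
  1 ≤ K * (1 + |v|) ^ 4 * |v - w|

def SEP : Prop := ∀ C, ZD C → ∃ K, Sep K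

def SPARSE : Prop := ∀ (P G E : Finset ℝ) (S : ℝ → Finset ℝ) (t w : ℝ → ℝ) (p : ℝ),
  0 ≤ p → p ≤ 1 → G ⊆ P → (∀ b, 0 ≤ w b) → (∀ g ∈ E, S g ⊆ P ∧ t g ∈ S g) →
  (∀ b ∈ G, ∑ g ∈ E.filter (fun g => t g = b), p ^ ((S g).card - 1) ≤ 1 / 2) →
  ∃ B : Finset ℝ, B ⊆ P ∧ (∀ g ∈ E, ¬ S g ⊆ B) ∧ p / 2 * ∑ b ∈ G, w b ≤ ∑ b ∈ B, w b

/-- A smoothed count of the zeros. -/
def Exs (K : ℝ) : Prop := 0 < K ∧ ∀ (X : ℝ) (V : Finset ℝ), 3 ≤ X → (∀ g ∈ V, z1 g = 0 ∧ 0 < g) →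
  ∑ g ∈ V, Real.exp (-(g / (2 * X))) ≤ K * X * Real.log X

def EXS : Prop := ∀ C, ZD C → ∃ K, Exs K

def EDGE : Prop := ∀ (P Z : Finset ℝ) (Δ : ℝ), 0 < Δ → Δ ≤ 1 → P ⊆ Z → (∀ g ∈ Z, Δ ≤ g) →
  (∀ g ∈ Z, ∀ g' ∈ Z, g ≠ g' → Δ ≤ |g - g'|) → Dis P (2 * Δ) →
  ∃ (E : Finset ℝ) (S : ℝ → Finset ℝ) (t : ℝ → ℝ), E ⊆ Z ∧
    (∀ g ∈ E, S g ⊆ P ∧ t g ∈ S g ∧ 2 ≤ (S g).card ∧ g ≤ (S g).card * t g + 1) ∧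
    ∀ B : Finset ℝ, B ⊆ P → (∀ g ∈ E, ¬ S g ⊆ B) → Free B Z Δ

/-- Many zeros carry much weight. -/
def Wt : Prop := ∃ (c : ℝ) (j₀ : ℕ), 0 < c ∧ ∀ (G : Finset ℝ) (J : Finset ℕ) (δ : ℝ), 0 < δ → δ ≤ 1 →
  (∀ b ∈ G, z1 b = 0 ∧ 0 < b) → (∀ j ∈ J, j₀ ≤ j ∧ Cum G δ j) →
  c * (δ * √δ) * ∑ j ∈ J, 1 / √(j : ℝ) ≤ ∑ b ∈ G, ‖cz b‖

def WT : Prop := Mom → ∀ C, ZD C → Wt

/-- A heavy subset without near-relations. -/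
def Pick : Prop := ∃ (c K : ℝ) (j₀ : ℕ), 0 < c ∧ 0 < K ∧
  ∀ (P Z : Finset ℝ) (J : Finset ℕ) (δ Δ X : ℝ), 0 < δ → δ ≤ 1 → 0 < Δ → 0 ≤ X → P ⊆ Z →
  (∀ g ∈ Z, z1 g = 0 ∧ 0 < g ∧ g ≤ X) → Δ * (K * (1 + X) ^ 4) ≤ 1 → Dis P (2 * Δ) →
  (∀ j ∈ J, j₀ ≤ j ∧ Cum P δ j) →
  ∃ B : Finset ℝ, B ⊆ P ∧ (∀ g ∈ Z, Δ ≤ g) ∧ Free B Z Δ ∧
    c * (δ ^ 2 * √δ) * ∑ j ∈ J, 1 / √(j : ℝ) ≤ ∑ b ∈ B, ‖cz b‖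

def PICK : Prop := SPARSE → EDGE → Wt → (∃ g₀ : ℝ, 0 < g₀ ∧ ∀ g : ℝ, z1 g = 0 → 0 < g → g₀ ≤ g) →
  ∀ K K', Sep K → Exs K' → Pick

/-- The main inequality. -/
def Master : Prop := ∃ (c T₀ : ℝ) (j₀ : ℕ), 0 < c ∧
  ∀ (e : ℝ) (P : Finset ℝ) (J : Finset ℕ) (δ Δ T a : ℝ), (e = 1 ∨ e = -1) → T₀ ≤ T →
  0 < δ → δ ≤ 1 → 0 < Δ → Δ ≤ 1 / T ^ 9 → 0 ≤ a →
  (∀ p ∈ P, z1 p = 0 ∧ 0 < p ∧ p ≤ T) → Dis P Δ → (∀ j ∈ J, j₀ ≤ j ∧ Cum P δ j) →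
  (∀ y : ℝ, T / 2 ≤ y → y ≤ Real.exp (T ^ 2) / Δ → e * Me y ≤ a * Real.exp (y / 2)) →
  c * (δ ^ 2 * √δ) * ∑ j ∈ J, 1 / √(j : ℝ) ≤ a + 2

def MASTER : Prop := NZ → GAU → RIESZ → Pick → ∀ C C', ZD C → 0 < C' → FB C' → Master

end Pool.Agent.MP_a550d9_nt.H38
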