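import Pool.Agent.MP_a550d9_nt.H28.FinB
import Pool.Agent.MP_a550d9_nt.H38.Spec

/-! The two consequences of the main inequality. -/

open Complex MeasureTheory Filter Topology

namespace Pool.Agent.MP_a550d9_nt.H38

open H28 FinA

theorem Dis.mono {P : Finset ℝ} {Δ Δ' : ℝ} (h : Dis P Δ) (h' : Δ' ≤ Δ) : Dis P Δ' :=
  fun c h1 h2 => h'.trans (h c h1 h2)

theorem Cum.mono {P : Finset ℝ} {δ δ' : ℝ} {j : ℕ} (h : Cum P δ j) (h' : δ' ≤ δ) : Cum P δ' j :=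
  le_trans (by gcongr) h

theorem dis_of (P : Finset ℝ) (h : ∀ c : ℝ → ℤ, (∀ p ∈ P, |c p| ≤ 2) →
    ∑ p ∈ P, (c p : ℝ) * p = 0 → ∀ p ∈ P, c p = 0) : ∃ Δ : ℝ, 0 < Δ ∧ Dis P Δ := by
  classical
  set W := (P.pi fun _ => Finset.Icc (-2 : ℤ) 2).image
    fun d => |∑ p ∈ P.attach, (d p.1 p.2 : ℝ) * p.1|
  obtain ⟨g, h1, h2⟩ := Finset.exists_min_image (insert 1 (W.filter fun v => 0 < v)) id
    (Finset.insert_nonempty _ _)
  refine ⟨g, ?_, fun c c1 ⟨p, c2, c3⟩ => h2 _ (Finset.mem_insert_of_mem (Finset.mem_filter.2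
    ⟨Finset.mem_image.2 ⟨fun p _ => c p, Finset.mem_pi.2 fun p hp =>
      Finset.mem_Icc.2 (abs_le.1 (c1 p hp)), ?_⟩, abs_pos.2 fun h0 => c3 (h c c1 h0 p c2)⟩))⟩
  · rcases Finset.mem_insert.1 h1 with rfl | h
    · exact one_pos
    · exact (Finset.mem_filter.1 h).2
  · exact congrArg _ (Finset.sum_attach P fun p => (c p : ℝ) * p)

theorem sqrt_floor (y : ℝ) : √(⌊Real.exp y⌋₊ : ℝ) ≤ Real.exp (y / 2) := by
  rw [Real.exp_half]
  exact Real.sqrt_le_sqrt (Nat.floor_le (Real.exp_pos y).le)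

theorem fin2 (hz : OneSide → Master) {e C : ℝ} (he : e = 1 ∨ e = -1)
    (H : ∀ N : ℕ, e * Mer N ≤ C * √N) : ∃ K : ℝ, ∀ (P : Finset ℝ) (J : Finset ℕ) (δ : ℝ), 0 < δ →
    δ ≤ 1 → (∀ p ∈ P, z1 p = 0 ∧ 0 < p) → (∀ c : ℝ → ℤ, (∀ p ∈ P, |c p| ≤ 2) →
      ∑ p ∈ P, (c p : ℝ) * p = 0 → ∀ p ∈ P, c p = 0) → (∀ j ∈ J, Cum P δ j) →
    δ ^ 2 * √δ * ∑ j ∈ J, 1 / √(j : ℝ) ≤ K := by
  have H' : ∀ N : ℕ, e * Mer N ≤ |C| * √N := fun N =>
    (H N).trans (mul_le_mul_of_nonneg_right (le_abs_self C) (Real.sqrt_nonneg _))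
  obtain ⟨c, T₀, j₀, hc, hM⟩ := hz ⟨e, |C|, he, fun N => (H' N).trans
    (mul_le_mul_of_nonneg_left (Real.sqrt_le_sqrt (le_mul_of_one_le_right (Nat.cast_nonneg _)
      (by linarith [Real.log_natCast_nonneg N]))) (abs_nonneg _))⟩
  refine ⟨(|C| + 2) / c + j₀, fun P J δ d0 d1 hP hI hJ => ?_⟩
  obtain ⟨Δ, h0, hΔ⟩ := dis_of P hI
  obtain ⟨T₁, hT₁⟩ := P.bddAbove
  set T := max (max T₀ T₁) 1
  have T0 : 0 < T := lt_of_lt_of_le one_pos (le_max_right _ _)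
  have M := hM e P (J.filter fun j => j₀ ≤ j) δ (min Δ (1 / T ^ 9)) T |C| he
    ((le_max_left _ _).trans (le_max_left _ _)) d0 d1 (lt_min h0 (by positivity))
    (min_le_right _ _) (abs_nonneg _) (fun p hp => ⟨(hP p hp).1, (hP p hp).2,
      (hT₁ hp).trans ((le_max_right _ _).trans (le_max_left _ _))⟩) (hΔ.mono (min_le_left _ _))
    (fun j hj => ⟨(Finset.mem_filter.1 hj).2, hJ j (Finset.mem_filter.1 hj).1⟩)
    fun y _ _ => (H' _).trans (mul_le_mul_of_nonneg_left (sqrt_floor y) (abs_nonneg _))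
  have a1 : ∑ j ∈ J.filter (fun j => ¬ j₀ ≤ j), 1 / √(j : ℝ) ≤ j₀ := by
    refine (Finset.sum_le_card_nsmul _ _ 1 fun j _ => ?_).trans ?_
    · rcases Nat.eq_zero_or_pos j with rfl | h
      · simp
      · have : 1 ≤ √(j : ℝ) := Real.one_le_sqrt.2 (by exact_mod_cast h)
        exact (div_le_one (by linarith)).2 this
    · rw [nsmul_eq_mul, mul_one, Nat.cast_le]
      refine (Finset.card_le_card (t := Finset.range j₀) fun j hj => ?_).trans (by simp)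
      simpa using (Finset.mem_filter.1 hj).2
  have a2 : δ ^ 2 * √δ ≤ 1 := mul_le_one₀ (pow_le_one₀ d0.le d1) (Real.sqrt_nonneg _)
    (Real.sqrt_le_one.2 d1)
  have a3 : 0 ≤ ∑ j ∈ J.filter (fun j => ¬ j₀ ≤ j), 1 / √(j : ℝ) := by positivity
  rw [← Finset.sum_filter_add_sum_filter_not J fun j => j₀ ≤ j, mul_add]
  refine add_le_add ?_ ((mul_le_of_le_one_left a3 a2).trans a1)
  rw [le_div_iff₀ hc]
  linarith

theorem fin1 (hz : OneSide → Master) {e ε A : ℝ} (he : e = 1 ∨ e = -1) (hε : 0 < ε)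
    (hI : ∀ T₀ : ℝ, ∃ T : ℝ, T₀ ≤ T ∧ ∃ (P : Finset ℝ) (J : Finset ℕ),
      (∀ p ∈ P, z1 p = 0 ∧ 0 < p ∧ p ≤ T) ∧ (∀ j ∈ J, (2 : ℝ) ^ j ≤ T ∧ Cum P ε j) ∧
      ε * Real.log T ≤ J.card ∧ Dis P (Real.exp (-T ^ A))) :
    ∃ c : ℝ, 0 < c ∧ ∀ X : ℕ, ∃ N : ℕ, X ≤ N ∧
      c * √(N * Real.log (Real.log (Real.log N))) ≤ e * Mer N := by
  by_contra hc
  have H : ∀ c : ℝ, 0 < c → ∃ X : ℕ, ∀ N : ℕ, X ≤ N →
      e * Mer N < c * √N * √(Real.log (Real.log (Real.log N))) := fun c h0 => by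
    by_contra h
    refine hc ⟨c, h0, fun X => ?_⟩
    by_contra h'
    refine h ⟨X, fun N hN => not_le.1 fun h'' => h' ⟨N, hN, ?_⟩⟩
    rwa [Real.sqrt_mul (Nat.cast_nonneg _), ← mul_assoc]
  obtain ⟨c, T₀, j₀, c0, hM⟩ := hz (by
    obtain ⟨X, hX⟩ := H 1 one_pos
    refine FinB.oneSide he (κ := 2) one_le_two (X := X) fun N hN => ?_
    rw [← Real.sqrt_eq_rpow]
    exact hX N hN)
  set δ := min ε 1
  have d0 : 0 < δ := lt_min hε one_pos
  set B := max A 2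
  have B2 : 2 ≤ B := le_max_right _ _
  set k := c * (δ ^ 2 * √δ) * ε / 4 with hk
  have k0 : 0 < k := by positivity
  have s0 : 0 < √(B + 1) := Real.sqrt_pos.2 (by linarith)
  obtain ⟨X, hX⟩ := H (k / (2 * √(B + 1))) (by positivity)
  obtain ⟨N₂, h2⟩ := eventually_atTop.1 ((ev_ll 3).and ((ev_log 1).and (eventually_ge_atTop 1)))
  have hl : ∀ᶠ T : ℝ in atTop, T ^ 9 * Real.exp (-T) ≤ 1 :=
    (Real.tendsto_pow_mul_exp_neg_atTop_nhds_zero 9).eventually_le_const one_pos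
  obtain ⟨T₁, hT₁⟩ := eventually_atTop.1 (hl.and ((eventually_ge_atTop T₀).and
    ((eventually_ge_atTop (3 + 2 * (X + N₂ : ℕ) : ℝ)).and
    ((Real.tendsto_log_atTop.eventually_ge_atTop (2 * (j₀ + 1) / ε)).and
    (Real.tendsto_log_atTop.eventually_gt_atTop ((4 / k) ^ 2))))))
  obtain ⟨T, hT, P, J, hP, hJ, hn, hD⟩ := hI T₁
  obtain ⟨t1, t2, t3, t4, t5⟩ := hT₁ T hT
  have p3 : (0 : ℝ) ≤ (X + N₂ : ℕ) := Nat.cast_nonneg _
  have T0 : 0 < T := by linarith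
  have L1 := one_le_log (show 3 ≤ T by linarith)
  have b1 : T ^ 2 ≤ T ^ B := by
    rw [← Real.rpow_two]
    exact Real.rpow_le_rpow_of_exponent_le (by linarith) B2
  have M := hM e P (J.filter fun j => j₀ + 1 ≤ j) δ (Real.exp (-T ^ B)) T
    (k / 2 * √(Real.log T)) he t2 d0 (min_le_right _ _) (Real.exp_pos _) (by
      rw [le_div_iff₀ (by positivity), mul_comm]
      refine le_trans (mul_le_mul_of_nonneg_left (Real.exp_le_exp.2 ?_) (by positivity)) t1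
      nlinarith) (by positivity) hP
    (hD.mono (Real.exp_le_exp.2 (neg_le_neg
      (Real.rpow_le_rpow_of_exponent_le (by linarith) (le_max_left _ _)))))
    (fun j hj => ⟨by linarith [(Finset.mem_filter.1 hj).2],
      (hJ j (Finset.mem_filter.1 hj).1).2.mono (min_le_left _ _)⟩)
    fun y v1 v2 => by
      have g1 : X + N₂ ≤ ⌊Real.exp y⌋₊ := Nat.le_floor (by linarith [Real.add_one_le_exp y])
      obtain ⟨k1, k2, k3⟩ := h2 ⌊Real.exp y⌋₊ (by omega)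
      have g3 := hX ⌊Real.exp y⌋₊ (by omega)
      have g5 : Real.log ⌊Real.exp y⌋₊ ≤ y := by
        rw [Real.log_le_iff_le_exp (by exact_mod_cast k3)]
        exact Nat.floor_le (Real.exp_pos y).le
      rw [← Real.exp_sub] at v2
      have g6 : Real.log (Real.log ⌊Real.exp y⌋₊) ≤ T ^ (B + 1) := by
        refine ((Real.log_le_iff_le_exp (by linarith)).2 (g5.trans v2)).trans ?_
        rw [Real.rpow_add_one T0.ne']
        nlinarith [sq_nonneg T]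
      have g7 : Real.log (Real.log (Real.log ⌊Real.exp y⌋₊)) ≤ (B + 1) * Real.log T := by
        rw [← Real.log_rpow T0]
        exact Real.log_le_log (by linarith) g6
      have g8 := Real.sqrt_le_sqrt g7
      rw [Real.sqrt_mul (by linarith)] at g8
      refine g3.le.trans (le_trans (mul_le_mul (mul_le_mul_of_nonneg_left (sqrt_floor y)
        (by positivity)) g8 (Real.sqrt_nonneg _) (by positivity)) (le_of_eq ?_))
      field_simp
  set l := √(Real.log T)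
  have l2 : l ^ 2 = Real.log T := Real.sq_sqrt (by linarith)
  have l0 : 4 / k < l := Real.lt_sqrt_of_sq_lt t5
  have l1 : 0 < l := lt_trans (by positivity) l0
  have a1 : (J.card : ℝ) ≤ (J.filter fun j => j₀ + 1 ≤ j).card + (j₀ + 1) := by
    have : (J.filter fun j => ¬ j₀ + 1 ≤ j).card ≤ j₀ + 1 := by
      refine (Finset.card_le_card (t := Finset.range (j₀ + 1)) fun j hj => ?_).trans (by simp)
      simpa using (Finset.mem_filter.1 hj).2
    rw [← Finset.card_filter_add_card_filter_not (s := J) fun j => j₀ + 1 ≤ j]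
    exact_mod_cast Nat.add_le_add_left this _
  have a2 : ((J.filter fun j => j₀ + 1 ≤ j).card : ℝ) * (1 / (2 * l)) ≤
      ∑ j ∈ J.filter (fun j => j₀ + 1 ≤ j), 1 / √(j : ℝ) := by
    rw [← nsmul_eq_mul]
    refine Finset.card_nsmul_le_sum _ _ _ fun j hj => ?_
    obtain ⟨d1, d2⟩ := Finset.mem_filter.1 hj
    have d3 := Real.log_le_log (by positivity) (hJ j d1).1
    rw [Real.log_pow] at d3
    have d4 : (0 : ℝ) < j := by exact_mod_cast (by omega : 0 < j)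
    refine one_div_le_one_div_of_le (Real.sqrt_pos.2 d4) (Real.sqrt_le_iff.2 ⟨by positivity, ?_⟩)
    nlinarith [Real.log_two_gt_d9]
  rw [div_le_iff₀ hε] at t4
  have a3 : ε * l / 4 ≤ ∑ j ∈ J.filter (fun j => j₀ + 1 ≤ j), 1 / √(j : ℝ) := by
    refine le_trans ?_ a2
    rw [mul_one_div, le_div_iff₀ (by positivity)]
    nlinarith
  have a4 := mul_le_mul_of_nonneg_left a3 (show 0 ≤ c * (δ ^ 2 * √δ) by positivity)
  rw [div_lt_iff₀ k0] at l0
  have a5 : c * (δ ^ 2 * √δ) * (ε * l / 4) = k * l := by rw [hk]; ring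
  linarith

end Pool.Agent.MP_a550d9_nt.H38
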