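import Pool.Agent.MP_a550d9_nt.H38.Spec
import Pool.Agent.MP_a550d9_nt.H28.FinB

/-! The main inequality, from the Riesz product applied to a heavy free subset. -/

open Complex MeasureTheory Filter Topology

namespace Pool.Agent.MP_a550d9_nt.H38

open H28 H28.FinA H28.FinB

namespace MASTERA

theorem ev_lin (C : ℝ) (hC : 0 < C) : ∀ᶠ T : ℝ in atTop, C * Real.log T + 12 ≤ T := by
  filter_upwards [Real.isLittleO_log_id_atTop.bound (show 0 < 1 / (2 * C) by positivity),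
    eventually_ge_atTop 24] with T h1 h2
  rw [id, Real.norm_of_nonneg (Real.log_nonneg (by linarith)),
    Real.norm_of_nonneg (by linarith), div_mul_eq_mul_div, le_div_iff₀ (by positivity)] at h1
  linarith

theorem big_le {C T : ℝ} {n : ℕ} (hT : 16 ≤ T) (h1 : C * Real.log T + 12 ≤ T)
    (hn : (n : ℝ) ≤ C * T * Real.log T) : 12 * 2 ^ n * T ^ 11 ≤ Real.exp (T ^ 2) := by
  have a1 : (2 : ℝ) ^ n ≤ Real.exp (C * T * Real.log T) := by
    calc (2 : ℝ) ^ n ≤ Real.exp 1 ^ n :=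
          pow_le_pow_left₀ (by norm_num) (by linarith [Real.add_one_le_exp 1]) n
      _ = Real.exp (n * 1) := (Real.exp_nat_mul 1 n).symm
      _ ≤ _ := Real.exp_le_exp.2 (by linarith)
  have a2 : T ≤ Real.exp T := by linarith [Real.add_one_le_exp T]
  have a3 : 12 * T ^ 11 ≤ Real.exp ((12 : ℕ) * T) := by
    rw [Real.exp_nat_mul]
    calc 12 * T ^ 11 ≤ T * T ^ 11 := mul_le_mul_of_nonneg_right (by linarith) (by positivity)
      _ = T ^ 12 := by ring
      _ ≤ _ := pow_le_pow_left₀ (by linarith) a2 12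
  calc 12 * 2 ^ n * T ^ 11 = 2 ^ n * (12 * T ^ 11) := by ring
    _ ≤ Real.exp (C * T * Real.log T) * Real.exp ((12 : ℕ) * T) :=
        mul_le_mul a1 a3 (by positivity) (Real.exp_pos _).le
    _ = Real.exp (C * T * Real.log T + (12 : ℕ) * T) := (Real.exp_add _ _).symm
    _ ≤ _ := Real.exp_le_exp.2 (by push_cast; nlinarith)

end MASTERA

open MASTERA

theorem master : MASTER := by
  intro nz gau riesz ⟨c, K, j₀, hc, hK, hP⟩ C C' Z hC' F
  have hC := Z.pos
  obtain ⟨T₀, hT₀⟩ := eventually_atTop.1 ((small C').and ((ev_lin C hC).and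
    (eventually_ge_atTop (16 + 64 * (C * C) + 8 * K))))
  refine ⟨c / 4, T₀, j₀, by positivity, ?_⟩
  intro e P J δ Δ T a he hT δ0 δ1 Δ0 Δ1 a0 hz hD hJ hM
  obtain ⟨y1, t1, t2⟩ := hT₀ T hT
  have p1 : 0 < 64 * (C * C) := by positivity
  have T0 : 0 < T := by linarith
  have T16 : 16 ≤ T := by linarith
  have TT : T ≤ T ^ 2 := by nlinarith
  have T2 : 1 + T ^ 2 ≤ 2 * T ^ 2 := by nlinarith
  have Δ2 : Δ ≤ 1 := Δ1.trans ((div_le_one (by positivity)).2 (one_le_pow₀ (by linarith)))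
  obtain ⟨B, hB, hg, hF, hW⟩ := hP P ((ZS (T ^ 2)).filter fun v => 0 < v) J δ (Δ / 2) (T ^ 2)
    δ0 δ1 (by positivity) (by positivity)
    (fun p hp => by
      obtain ⟨b1, b2, b3⟩ := hz p hp
      exact Finset.mem_filter.2 ⟨mem_ZS.2 ⟨b1, by rw [abs_of_pos b2]; linarith⟩, b2⟩)
    (fun g h => by
      obtain ⟨b1, b2⟩ := Finset.mem_filter.1 h
      exact ⟨(mem_ZS.1 b1).1, b2, (le_abs_self g).trans (mem_ZS.1 b1).2⟩)
    (by
      calc Δ / 2 * (K * (1 + T ^ 2) ^ 4) ≤ 1 / T ^ 9 / 2 * (K * (2 * T ^ 2) ^ 4) := by gcongr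
        _ = 8 * K / T := by field_simp; norm_num
        _ ≤ 1 := (div_le_one T0).2 (by linarith))
    (by rwa [mul_div_cancel₀ _ two_ne_zero]) hJ
  have BZ : B ⊆ ZS T := fun b hb => by
    obtain ⟨b1, b2, b3⟩ := hz b (hB hb)
    exact mem_ZS.2 ⟨b1, by rwa [abs_of_pos b2]⟩
  set U := 2 ^ B.card * 2 * T ^ 11 / (Δ / 2) with hU
  have U1 : T ^ 2 ≤ U := by
    rw [hU, le_div_iff₀ (by positivity)]
    have b1 : (1 : ℝ) ≤ 2 ^ B.card := one_le_pow₀ one_le_two
    have b2 : T ^ 2 ≤ T ^ 11 := pow_le_pow_right₀ (by linarith) (by norm_num)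
    have b3 : 0 < T ^ 2 := by positivity
    nlinarith
  have U2 : 3 * U ≤ Real.exp (T ^ 2) / Δ := by
    have := big_le T16 t1 ((Nat.cast_le.2 (Finset.card_le_card BZ)).trans (Z.card T (by linarith)))
    rw [show 3 * U = 12 * 2 ^ B.card * T ^ 11 / Δ by rw [hU]; field_simp; norm_num]
    exact div_le_div_of_nonneg_right this Δ0.le
  have e1 : |e| = 1 := by rcases he with rfl | rfl <;> simp
  have na : ∀ g : ℝ, ‖e * cz g * (Real.exp (-(g ^ 2 / (2 * T ^ 2))) : ℝ)‖ =
      ‖cz g‖ * Real.exp (-(g ^ 2 / (2 * T ^ 2))) := fun g => by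
    rw [norm_mul, norm_mul, norm_real, norm_real, Real.norm_eq_abs, e1, one_mul,
      Real.norm_of_nonneg (Real.exp_pos _).le]
  have R := riesz B ((ZS (T ^ 2)).filter fun v => 0 < v)
    (fun g => e * cz g * (Real.exp (-(g ^ 2 / (2 * T ^ 2))) : ℝ)) (Δ / 2) U (a + 1)
    (fun p hp => by
      obtain ⟨b1, b2, b3⟩ := hz p (hB hp)
      exact Finset.mem_filter.2 ⟨mem_ZS.2 ⟨b1, by rw [abs_of_pos b2]; linarith⟩, b2⟩)
    (by positivity) (by linarith) (by positivity) hg hF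
    (fun u u1 u2 => by
      rw [← re_sym nz]
      have F1 := F T u (T ^ 2) (by linarith) (by linarith) (by positivity)
      have G := gau (fun y => e * Me y) T u a 1
        (measurable_Me.const_mul e) (by linarith) (by linarith) a0 (fun y => by
          rw [abs_mul, e1, one_mul, one_mul]
          exact abs_Me_le y) (fun y v1 v2 => hM y (by linarith) (by linarith))
      have G2 : e * IB T u = ∫ y, e * Me y * Real.exp (-y / 2) * Kt T (y - u) := by
        rw [IB, ← integral_const_mul]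
        simp only [mul_assoc]
      have G3 : Real.exp (-u / 2) ≤ 2 / T ^ 2 := by
        rw [neg_div, Real.exp_neg, inv_eq_one_div,
          div_le_div_iff₀ (Real.exp_pos _) (by positivity)]
        linarith [Real.add_one_le_exp (u / 2)]
      have G4 : 2 / T ^ 2 ≤ 2 / T := div_le_div_of_nonneg_left (by norm_num) T0 TT
      have G5 : T * Real.exp (-u / 2) ≤ 2 / T := by
        refine (mul_le_mul_of_nonneg_left G3 T0.le).trans (le_of_eq ?_)
        field_simp
      have G6 : (T ^ 2) ^ 2 / (4 * T ^ 2) = T ^ 2 / 4 := by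
        field_simp
      rw [G6] at F1
      have G7 := (e_le he _).trans ((abs_re_le_norm _).trans ((norm_sub_rev _ _).le.trans F1))
      rw [sub_re, ofReal_re, mul_sub] at G7
      rw [← G2] at G
      have G10 : T ^ 6 * Real.exp (-(T ^ 2 / 4)) ≤ (T ^ 9) ^ 6 * Real.exp (-(T ^ 2 / 4)) :=
        mul_le_mul_of_nonneg_right (pow_le_pow_left₀ T0.le
          (le_self_pow₀ (by linarith) (by norm_num)) 6) (Real.exp_pos _).le
      have G8 := mul_le_mul_of_nonneg_left (add_le_add G5 G10) hC'.le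
      have G9 : 4 / T = 2 * (2 / T) := by ring
      linarith)
  simp only [na] at R
  have S1 : ∑ g ∈ (ZS (T ^ 2)).filter (fun v => 0 < v),
      ‖cz g‖ * Real.exp (-(g ^ 2 / (2 * T ^ 2))) ≤ C * C * (2 * T ^ 2) ^ 5 := by
    refine le_trans (Finset.sum_le_sum fun g _ => mul_le_of_le_one_right (norm_nonneg _)
      (Real.exp_le_one_iff.2 (neg_nonpos.2 (by positivity)))) ((Finset.sum_le_sum_of_subset_of_nonneg
      (Finset.filter_subset _ _) fun _ _ _ => norm_nonneg _).trans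
      ((sum_cz_le Z (by positivity)).trans ?_))
    gcongr
  set S := ∑ g ∈ (ZS (T ^ 2)).filter (fun v => 0 < v),
      ‖cz g‖ * Real.exp (-(g ^ 2 / (2 * T ^ 2)))
  have S2 : (a + 1 + 2 * S) * 2 ^ B.card * 2 / (U * (Δ / 2)) =
      (a + 1) / T ^ 11 + 2 * S / T ^ 11 := by
    rw [hU]
    field_simp
  have S3 : (a + 1) / T ^ 11 ≤ a + 1 := div_le_self (by positivity) (one_le_pow₀ (by linarith))
  have S4 : 2 * S / T ^ 11 ≤ 1 := by
    rw [div_le_one (by positivity)]
    have := mul_le_mul_of_nonneg_right (show 64 * (C * C) ≤ T by linarith)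
      (show 0 ≤ T ^ 10 by positivity)
    nlinarith
  have S5 : ∑ b ∈ B, ‖cz b‖ ≤ 2 * ∑ g ∈ B, ‖cz g‖ * Real.exp (-(g ^ 2 / (2 * T ^ 2))) := by
    rw [Finset.mul_sum]
    refine Finset.sum_le_sum fun g h => ?_
    obtain ⟨-, b2, b3⟩ := hz g (hB h)
    have b4 : g ^ 2 / (2 * T ^ 2) ≤ 1 / 2 := by
      rw [div_le_div_iff₀ (by positivity) two_pos]
      nlinarith
    have b5 := Real.add_one_le_exp (-(g ^ 2 / (2 * T ^ 2)))
    nlinarith [norm_nonneg (cz g)]
  have S6 : c / 4 * (δ ^ 2 * √δ) * ∑ j ∈ J, 1 / √(j : ℝ) =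
      c * (δ ^ 2 * √δ) * (∑ j ∈ J, 1 / √(j : ℝ)) / 4 := by ring
  rw [S6]
  linarith

end Pool.Agent.MP_a550d9_nt.H38
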