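import Pool.Agent.MP_a550d9_nt.H38.Spec

/-!
The Mellin transform of the fractional part.
-/

open Complex MeasureTheory Set Filter Topology

namespace Pool.Agent.MP_a550d9_nt.H38

open Pool.Agent.MP_ca0a54_nt.L0.ZetaA

namespace MELA

theorem meas_fr : Measurable fr := measurable_fract.comp Real.measurable_exp

theorem fr_neg {s : ℂ} {y : ℝ} (h : y < 0) :
    (fr y : ℂ) * exp (-s * y) = exp ((1 - s) * y) := by
  rw [fr, Int.fract_eq_self.2 ⟨(Real.exp_pos y).le, Real.exp_lt_one_iff.2 h⟩, ofReal_exp, ← exp_add]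
  congr 1
  ring

theorem int_right {s : ℂ} (hs : 0 < s.re) :
    IntegrableOn (fun y : ℝ => (fr y : ℂ) * exp (-s * y)) (Ioi 0) := by
  refine Integrable.bdd_mul (c := 1) (integrableOn_exp_mul_complex_Ioi (by simpa using hs) 0)
    (measurable_ofReal.comp meas_fr).aestronglyMeasurable (Eventually.of_forall fun y => ?_)
  rw [norm_real, Real.norm_eq_abs, fr, abs_of_nonneg (Int.fract_nonneg _)]
  exact (Int.fract_lt_one _).le

theorem piece {s : ℂ} (h0 : s ≠ 0) (h1 : 1 - s ≠ 0) (n : ℕ) :
    ∫ y in Real.log (n + 1)..Real.log ((n + 1 : ℕ) + 1),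
      (exp (-s * y) - (fr y : ℂ) * exp (-s * y)) = tm n s / (s * (s - 1)) := by
  have hm : (0 : ℝ) < n + 1 := by positivity
  have e0 : ((n + 1 : ℕ) : ℝ) + 1 = n + 1 + 1 := by push_cast; ring
  rw [e0]
  have hle : Real.log (n + 1) ≤ Real.log (n + 1 + 1) := Real.log_le_log hm (by linarith)
  have e1 : ∫ y in Real.log (n + 1)..Real.log (n + 1 + 1),
      (exp (-s * y) - (fr y : ℂ) * exp (-s * y)) =
      ∫ y in Real.log (n + 1)..Real.log (n + 1 + 1),
        (((n : ℂ) + 2) * exp (-s * y) - exp ((1 - s) * y)) := by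
    rw [intervalIntegral.integral_of_le hle, intervalIntegral.integral_of_le hle,
      integral_Ioc_eq_integral_Ioo, integral_Ioc_eq_integral_Ioo]
    refine setIntegral_congr_fun measurableSet_Ioo fun y hy => ?_
    have a1 : (n : ℝ) + 1 < Real.exp y := (Real.log_lt_iff_lt_exp hm).1 hy.1
    have a2 : Real.exp y < n + 1 + 1 := (Real.lt_log_iff_exp_lt (by linarith)).1 hy.2
    have a3 : fr y = Real.exp y - (n + 1) := by
      rw [fr, Int.fract_eq_iff]
      exact ⟨by linarith, by linarith, n + 1, by push_cast; ring⟩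
    have a4 : exp ((1 - s) * y) = exp y * exp (-s * y) := by
      rw [← exp_add]
      congr 1
      ring
    simp only [a3, a4]
    push_cast
    ring
  have hp : ∀ x : ℝ, 0 < x → pw (1 - s) x = x * pw (-s) x := fun x hx => by
    rw [pw, pw, sub_mul, one_mul, sub_eq_add_neg, exp_add, ← ofReal_exp, Real.exp_log hx, neg_mul]
  rw [e1, intervalIntegral.integral_sub (Continuous.intervalIntegrable (by fun_prop) _ _)
    (Continuous.intervalIntegrable (by fun_prop) _ _), intervalIntegral.integral_const_mul,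
    integral_exp_mul_complex (neg_ne_zero.2 h0), integral_exp_mul_complex h1]
  change ((n : ℂ) + 2) * ((pw (-s) (n + 1 + 1) - pw (-s) (n + 1)) / -s) -
    (pw (1 - s) (n + 1 + 1) - pw (1 - s) (n + 1)) / (1 - s) = _
  have h2 : s - 1 ≠ 0 := fun h => h1 (by linear_combination -h)
  rw [tm, hp _ hm, hp _ (by linarith)]
  push_cast
  field_simp
  ring

theorem right {s : ℂ} (hs : 1 / 4 < s.re) (h1 : 1 - s ≠ 0) :
    ∫ y : ℝ in Ioi 0, (exp (-s * y) - (fr y : ℂ) * exp (-s * y)) =
      (riemannZeta₁ s - 1) / (s * (s - 1)) := by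
  have hs0 : 0 < s.re := by linarith
  have h0 : s ≠ 0 := by
    rintro rfl
    simp at hs0
  have hi : IntegrableOn (fun y : ℝ => exp (-s * y) - (fr y : ℂ) * exp (-s * y)) (Ioi 0) :=
    (integrableOn_exp_mul_complex_Ioi (by simpa using hs0) 0).sub (int_right hs0)
  have hpos : ∀ k : ℕ, 0 ≤ Real.log (k + 1) := fun k =>
    Real.log_nonneg (by linarith [Nat.cast_nonneg (α := ℝ) k])
  have ht : Tendsto (fun n : ℕ => Real.log (n + 1)) atTop atTop :=
    Real.tendsto_log_atTop.comp (tendsto_atTop_add_const_right _ _ tendsto_natCast_atTop_atTop)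
  have hsum : Summable fun n => tm n s :=
    Summable.of_norm_bounded (summable_Z'.mul_left _) fun n => norm_tm_le n s hs.le
  have h2 := (hsum.hasSum.div_const (s * (s - 1))).tendsto_sum_nat
  rw [tsum_tm s hs] at h2
  refine tendsto_nhds_unique (intervalIntegral_tendsto_integral_Ioi 0 hi ht) (h2.congr fun n => ?_)
  have h3 := intervalIntegral.sum_integral_adjacent_intervals (μ := volume)
    (f := fun y : ℝ => exp (-s * y) - (fr y : ℂ) * exp (-s * y))
    (a := fun k : ℕ => Real.log (k + 1)) (n := n) fun k _ => by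
      rw [intervalIntegrable_iff]
      exact hi.mono_set fun y hy => (le_min (hpos k) (hpos (k + 1))).trans_lt hy.1
  simp only [piece h0 h1] at h3
  rw [h3]
  simp

end MELA

open MELA in
theorem mel : MEL := by
  intro s hs hs1
  have hs0 : 0 < s.re := by linarith
  have h0 : s ≠ 0 := by
    rintro rfl
    simp at hs0
  have hr : 0 < (1 - s).re := by simpa using hs1
  have h1 : 1 - s ≠ 0 := fun h => by simp [h] at hr
  have h2 : s - 1 ≠ 0 := fun h => h1 (by linear_combination -h)
  have hl : IntegrableOn (fun y : ℝ => (fr y : ℂ) * exp (-s * y)) (Iic 0) := by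
    rw [integrableOn_Iic_iff_integrableOn_Iio]
    exact ((integrableOn_exp_mul_complex_Iic hr 0).mono_set Iio_subset_Iic_self).congr_fun
      (fun y hy => (fr_neg hy).symm) measurableSet_Iio
  have e1 : ∫ y : ℝ in Iic 0, (fr y : ℂ) * exp (-s * y) = 1 / (1 - s) := by
    rw [integral_Iic_eq_integral_Iio, setIntegral_congr_fun measurableSet_Iio fun y hy => fr_neg hy,
      ← integral_Iic_eq_integral_Iio, integral_exp_mul_complex_Iic hr]
    simp
  have e2 := right hs h1
  rw [integral_sub (integrableOn_exp_mul_complex_Ioi (by simpa using hs0) 0) (int_right hs0),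
    integral_exp_mul_complex_Ioi (by simpa using hs0)] at e2
  refine ⟨?_, ?_⟩
  · rw [← integrableOn_univ, ← Iic_union_Ioi (a := (0 : ℝ))]
    exact hl.union (int_right hs0)
  · rw [← intervalIntegral.integral_Iic_add_Ioi hl (int_right hs0), e1,
      show ∫ y : ℝ in Ioi 0, (fr y : ℂ) * exp (-s * y) =
        -exp (-s * (0 : ℝ)) / -s - (riemannZeta₁ s - 1) / (s * (s - 1)) by rw [← e2]; ring]
    simp only [ofReal_zero, mul_zero, exp_zero]
    field_simp
    ring

end Pool.Agent.MP_a550d9_nt.H38
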