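import Pool.Agent.MP_a550d9_nt.H38.Spec

/-!
The second moment of the derivative at the zeros.
-/

open Complex MeasureTheory

namespace Pool.Agent.MP_a550d9_nt.H38

open H28

namespace MOMA

/-- The weighted square. -/
noncomputable def g (f : ℂ → ℂ) (t y : ℝ) : ℝ := ‖f (t + y * I)‖ ^ 2 / (1 + t ^ 2)

theorem g_cont {f : ℂ → ℂ} (hf : Continuous f) {α : Type} [TopologicalSpace α] {a b : α → ℝ}
    (ha : Continuous a) (hb : Continuous b) : Continuous fun x => g f (a x) (b x) := by
  unfold g
  exact Continuous.div (by fun_prop) (by fun_prop) fun x => by positivity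

theorem g_nonneg (f : ℂ → ℂ) (t y : ℝ) : 0 ≤ g f t y := by
  unfold g
  positivity

theorem circ (t r θ : ℝ) : circleMap (t : ℂ) r θ =
    ((t + r * Real.cos θ : ℝ) : ℂ) + ((r * Real.sin θ : ℝ) : ℂ) * I := by
  rw [circleMap, exp_mul_I]
  push_cast
  ring

theorem loc (hD : DISC) {f : ℂ → ℂ} (hf : Differentiable ℂ f) {Z : Finset ℝ}
    (hZ : ∀ v ∈ Z, f v = 0) {R : ℝ} (hR : 0 < R) (hR1 : R ≤ 1 / 4) (t : ℝ) :
    ∑ v ∈ Z, (Set.Ioc (v - R / 4) (v + R / 4)).indicator
      (fun _ => ‖deriv f v‖ ^ 2 / (1 + |v|) ^ 2) t ≤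
      8 / R ^ 2 * ∫ θ in (0 : ℝ)..2 * Real.pi,
        g f (t + 2 * R * Real.cos θ) (2 * R * Real.sin θ) := by
  classical
  have hW : 0 < (1 + |t|) ^ 2 := by positivity
  have h1 := hD f t R ((Z.filter fun v => t ∈ Set.Ioc (v - R / 4) (v + R / 4)).image (↑)) hf hR
    (by
      intro w hw
      obtain ⟨v, hv, rfl⟩ := Finset.mem_image.1 hw
      obtain ⟨h1, h2, h3⟩ := Finset.mem_filter.1 hv
      refine ⟨hZ v h1, ?_⟩
      rw [← ofReal_sub, norm_real, Real.norm_eq_abs, abs_le]
      constructor <;> linarith)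
  rw [Finset.sum_image fun a _ b _ h => ofReal_injective h] at h1
  have h2 : ∫ θ in (0 : ℝ)..2 * Real.pi, ‖f (circleMap t (2 * R) θ)‖ ^ 2 ≤
      2 * (1 + |t|) ^ 2 * ∫ θ in (0 : ℝ)..2 * Real.pi,
        g f (t + 2 * R * Real.cos θ) (2 * R * Real.sin θ) := by
    rw [← intervalIntegral.integral_const_mul]
    have hc := hf.continuous
    refine intervalIntegral.integral_mono_on (by positivity)
      (Continuous.intervalIntegrable (by fun_prop) _ _)
      ((continuous_const.mul (g_cont hc (by fun_prop) (by fun_prop))).intervalIntegrable _ _)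
      fun θ _ => ?_
    rw [circ, g, ← mul_div_assoc, le_div_iff₀ (by positivity), mul_comm]
    refine mul_le_mul_of_nonneg_right ?_ (by positivity)
    have a1 : |t + 2 * R * Real.cos θ| ≤ 1 + |t| := by
      refine (abs_add_le _ _).trans ?_
      rw [abs_mul, abs_of_pos (by positivity : 0 < 2 * R)]
      nlinarith [Real.abs_cos_le_one θ, abs_nonneg (Real.cos θ)]
    have a2 := pow_le_pow_left₀ (abs_nonneg _) a1 2
    rw [sq_abs] at a2
    nlinarith [abs_nonneg t]
  have h3 : ∑ v ∈ Z, (Set.Ioc (v - R / 4) (v + R / 4)).indicator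
      (fun _ => ‖deriv f v‖ ^ 2 / (1 + |v|) ^ 2) t ≤ 4 / (1 + |t|) ^ 2 *
      ∑ v ∈ Z.filter fun v => t ∈ Set.Ioc (v - R / 4) (v + R / 4), ‖deriv f v‖ ^ 2 := by
    rw [Finset.sum_filter, Finset.mul_sum]
    refine Finset.sum_le_sum fun v _ => ?_
    by_cases h : t ∈ Set.Ioc (v - R / 4) (v + R / 4)
    · rw [Set.indicator_of_mem h, if_pos h, div_eq_inv_mul]
      refine mul_le_mul_of_nonneg_right ?_ (by positivity)
      rw [inv_eq_one_div, div_le_div_iff₀ (by positivity) hW]
      have a1 : |t| ≤ |v| + 1 := by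
        have a2 := abs_sub_abs_le_abs_sub t v
        have a3 : |t - v| ≤ 1 := abs_le.2 ⟨by linarith [h.1], by linarith [h.2]⟩
        linarith
      nlinarith [abs_nonneg t, abs_nonneg v]
    · rw [Set.indicator_of_notMem h, if_neg h, mul_zero]
  refine h3.trans ((mul_le_mul_of_nonneg_left (h1.trans
    (mul_le_mul_of_nonneg_left h2 (by positivity))) (by positivity)).trans (le_of_eq ?_))
  field_simp
  ring

theorem glob (hD : DISC) {f : ℂ → ℂ} (hf : Differentiable ℂ f) {Z : Finset ℝ} {T X R A : ℝ}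
    (hZ : ∀ v ∈ Z, f v = 0 ∧ |v| ≤ T) (hR : 0 < R) (hR1 : R ≤ 1 / 4) (hT : 0 ≤ T)
    (hX : T + 2 ≤ X) (hA : ∀ y, |y| ≤ 2 * R → ∫ t in (-X)..X, g f t y ≤ A) :
    R / 2 * ∑ v ∈ Z, ‖deriv f v‖ ^ 2 / (1 + |v|) ^ 2 ≤ 8 / R ^ 2 * (2 * Real.pi * A) := by
  have hc := hf.continuous
  have hab : -(T + 1) ≤ T + 1 := by linarith
  have hH : Continuous (Function.uncurry fun t θ : ℝ =>
      g f (t + 2 * R * Real.cos θ) (2 * R * Real.sin θ)) := g_cont hc (by fun_prop) (by fun_prop)
  have hH' : Continuous (Function.uncurry fun θ t : ℝ =>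
      g f (t + 2 * R * Real.cos θ) (2 * R * Real.sin θ)) := g_cont hc (by fun_prop) (by fun_prop)
  have hi : ∀ v ∈ Z, IntervalIntegrable ((Set.Ioc (v - R / 4) (v + R / 4)).indicator
      fun _ => ‖deriv f v‖ ^ 2 / (1 + |v|) ^ 2) volume (-(T + 1)) (T + 1) := fun v _ =>
    ⟨intervalIntegrable_const.1.indicator measurableSet_Ioc,
      intervalIntegrable_const.2.indicator measurableSet_Ioc⟩
  have h1 := intervalIntegral.integral_mono_on (μ := volume) hab
    (by simpa only [Finset.sum_fn] using IntervalIntegrable.sum Z hi)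
    ((continuous_const.mul (intervalIntegral.continuous_parametric_intervalIntegral_of_continuous'
      hH 0 (2 * Real.pi))).intervalIntegrable _ _)
    fun t _ => loc hD hf (fun v hv => (hZ v hv).1) hR hR1 t
  rw [intervalIntegral.integral_finsetSum hi] at h1
  simp only [Pi.mul_apply] at h1
  rw [intervalIntegral.integral_const_mul, intervalIntegral_intervalIntegral_swap
    ((hH.continuousOn.integrableOn_compact (isCompact_uIcc.prod isCompact_uIcc)).mono_set
      (Set.prod_mono Set.uIoc_subset_uIcc Set.uIoc_subset_uIcc))] at h1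
  refine le_trans (le_of_eq ?_) (h1.trans (mul_le_mul_of_nonneg_left ?_ (by positivity)))
  · rw [Finset.mul_sum]
    refine Finset.sum_congr rfl fun v hv => ?_
    have h2 := abs_le.1 (hZ v hv).2
    rw [intervalIntegral.integral_of_le hab, setIntegral_indicator measurableSet_Ioc,
      Set.inter_eq_right.2 (Set.Ioc_subset_Ioc (by linarith) (by linarith)), setIntegral_const,
      Real.volume_real_Ioc_of_le (by linarith), smul_eq_mul]
    ring
  · have h2 := intervalIntegral.integral_mono_on (μ := volume) (a := 0) (b := 2 * Real.pi)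
      (by positivity)
      ((intervalIntegral.continuous_parametric_intervalIntegral_of_continuous' (μ := volume)
        hH' (-(T + 1)) (T + 1)).intervalIntegrable _ _) (intervalIntegrable_const (c := A))
      fun θ _ => by
        have a1 : |2 * R * Real.cos θ| ≤ 1 := by
          rw [abs_mul, abs_of_pos (by positivity : 0 < 2 * R)]
          nlinarith [Real.abs_cos_le_one θ, abs_nonneg (Real.cos θ)]
        have a2 : |2 * R * Real.sin θ| ≤ 2 * R := by
          rw [abs_mul, abs_of_pos (by positivity : 0 < 2 * R)]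
          exact mul_le_of_le_one_right (by positivity) (Real.abs_sin_le_one θ)
        rw [abs_le] at a1
        rw [intervalIntegral.integral_comp_add_right (fun t => g f t (2 * R * Real.sin θ))]
        exact (intervalIntegral.integral_mono_interval (by linarith) (by linarith) (by linarith)
          (Filter.Eventually.of_forall fun t => g_nonneg f t _)
          ((g_cont hc continuous_id continuous_const).intervalIntegrable _ _)).trans (hA _ a2)
    rwa [intervalIntegral.integral_const, sub_zero, smul_eq_mul] at h2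

end MOMA

theorem mom : MOM := by
  rintro hD ⟨C, X₀, hC, hM⟩
  refine ⟨1024 * Real.pi * C, max X₀ (Real.exp 4), by positivity, fun T hT => ?_⟩
  have h1 : X₀ ≤ T := (le_max_left _ _).trans hT
  have h2 : Real.exp 4 ≤ T := (le_max_right _ _).trans hT
  have h3 : 5 ≤ T := by linarith [Real.add_one_le_exp 4]
  have h4 : 4 ≤ Real.log (2 * T) := (Real.le_log_iff_exp_le (by linarith)).2 (by linarith)
  have h5 : Real.log (2 * T) ≤ 2 * Real.log T := by
    rw [Real.log_mul (by norm_num) (by linarith)]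
    linarith [Real.log_le_log (by norm_num : (0 : ℝ) < 2) (by linarith : 2 ≤ T)]
  have h0 : 0 < Real.log (2 * T) := by linarith
  have h6 := MOMA.glob hD z1_diff (Z := ZS T) (T := T) (X := 2 * T) (R := 1 / Real.log (2 * T))
    (A := C * (2 * T) * Real.log (2 * T)) (fun v hv => mem_ZS.1 hv) (by positivity)
    (one_div_le_one_div_of_le (by norm_num) h4) (by linarith) (by linarith)
    fun y hy => hM (2 * T) y (by linarith) (by rwa [mul_one_div] at hy)
  have h7 := pow_le_pow_left₀ h0.le h5 4
  generalize ∑ v ∈ ZS T, ‖deriv z1 v‖ ^ 2 / (1 + |v|) ^ 2 = S at h6 ⊢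
  generalize Real.log (2 * T) = L at h0 h6 h7
  have h8 : S ≤ 64 * Real.pi * C * T * L ^ 4 := by
    have e1 : S = 2 * L * (1 / L / 2 * S) := by field_simp
    rw [e1]
    refine (mul_le_mul_of_nonneg_left h6 (by positivity)).trans (le_of_eq ?_)
    field_simp
    ring
  refine h8.trans ((mul_le_mul_of_nonneg_left h7 (by positivity)).trans (le_of_eq ?_))
  ring

end Pool.Agent.MP_a550d9_nt.H38
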