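import Pool.Agent.MP_a550d9_nt.H38.Spec

/-!
Row MSQ: the mean square near the critical line.
-/

open Complex MeasureTheory

namespace Pool.Agent.MP_a550d9_nt.H38

open H28

namespace MSQA

theorem ft (hM : MEL) {σ : ℝ} (h1 : 1 / 4 < σ) (h2 : σ < 1) (η t : ℝ) :
    Integrable (fun y : ℝ => (((fr (y + η) - fr y) * Real.exp (-σ * y) : ℝ) : ℂ) *
      exp (-(I * t * y))) ∧
    ∫ y : ℝ, (((fr (y + η) - fr y) * Real.exp (-σ * y) : ℝ) : ℂ) * exp (-(I * t * y)) =
      (exp (η * (σ + I * t)) - 1) * riemannZeta₁ (σ + I * t) / ((σ + I * t) * (1 - (σ + I * t))) := by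
  obtain ⟨a, b⟩ := hM (σ + I * t) (by simpa using h1) (by simpa using h2)
  have e : (fun y : ℝ => (((fr (y + η) - fr y) * Real.exp (-σ * y) : ℝ) : ℂ) *
      exp (-(I * t * y))) = fun y : ℝ => exp (η * (σ + I * t)) *
        ((fr (y + η) : ℂ) * exp (-(σ + I * t) * (y + η : ℝ))) -
          (fr y : ℂ) * exp (-(σ + I * t) * y) := by
    funext y
    rw [mul_left_comm, ← exp_add]
    push_cast
    rw [mul_assoc, ← exp_add, sub_mul]
    congr 3 <;> ring
  have c := (a.comp_add_right η).const_mul (exp (η * (σ + I * t)))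
  rw [e]
  refine ⟨c.sub a, ?_⟩
  rw [integral_sub c a, integral_const_mul,
    integral_add_right_eq_self (fun y : ℝ => (fr y : ℂ) * exp (-(σ + I * t) * y)) η, b]
  ring

theorem pw {σ η t X : ℝ} (ζ : ℂ) (h1 : 0 < σ) (h2 : σ < 1) (hX : 1 ≤ X) (hη : η = 1 / (4 * X))
    (ht : |t| ≤ X) : ‖ζ‖ ^ 2 / (1 + t ^ 2) ≤ 4 / η ^ 2 *
      ‖(exp (η * (σ + I * t)) - 1) * ζ / ((σ + I * t) * (1 - (σ + I * t)))‖ ^ 2 := by
  have hη0 : 0 < η := by rw [hη]; positivity
  have hs : 0 < ‖(σ + I * t : ℂ)‖ := norm_pos_iff.2 fun h => by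
    have := congrArg Complex.re h
    simp at this
    linarith
  have hs1 : ‖(1 - (σ + I * t) : ℂ)‖ ^ 2 = (1 - σ) ^ 2 + t ^ 2 := by
    rw [Complex.sq_norm, normSq_apply]
    simp
    ring
  have hs2 : ‖(σ + I * t : ℂ)‖ ≤ 2 * X := by
    refine (norm_add_le _ _).trans ?_
    rw [norm_mul, norm_I, one_mul, norm_real, norm_real, Real.norm_eq_abs, Real.norm_eq_abs,
      abs_of_pos h1]
    linarith
  have hw : ‖(η * (σ + I * t) : ℂ)‖ = η * ‖(σ + I * t : ℂ)‖ := by
    rw [norm_mul, norm_real, Real.norm_of_nonneg hη0.le]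
  have hw2 : η * ‖(σ + I * t : ℂ)‖ ≤ 1 / 2 := by
    refine (mul_le_mul_of_nonneg_left hs2 hη0.le).trans (le_of_eq ?_)
    rw [hη]
    field_simp
    norm_num
  have h3 := norm_exp_sub_one_sub_id_le (x := η * (σ + I * t)) (by rw [hw]; linarith)
  have h4 := norm_sub_norm_le (η * (σ + I * t) : ℂ) (exp (η * (σ + I * t)) - 1)
  rw [norm_sub_rev (η * (σ + I * t) : ℂ), hw] at h4
  rw [hw] at h3
  rw [norm_div, norm_mul, norm_mul, div_pow, mul_pow, mul_pow, hs1]
  generalize ‖(σ + I * t : ℂ)‖ = S at *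
  generalize ‖exp (η * (σ + I * t)) - 1‖ = E at *
  have h5 : η * S / 2 ≤ E := by nlinarith [mul_pos hη0 hs]
  have h6 : (η * S / 2) ^ 2 ≤ E ^ 2 := pow_le_pow_left₀ (by positivity) h5 2
  have h7 : 0 < (1 - σ) ^ 2 + t ^ 2 := add_pos_of_pos_of_nonneg (pow_pos (by linarith) 2) (sq_nonneg _)
  calc ‖ζ‖ ^ 2 / (1 + t ^ 2) ≤ ‖ζ‖ ^ 2 / ((1 - σ) ^ 2 + t ^ 2) :=
        div_le_div_of_nonneg_left (sq_nonneg _) h7 (by nlinarith)
    _ = 4 / η ^ 2 * ((η * S / 2) ^ 2 * ‖ζ‖ ^ 2 / (S ^ 2 * ((1 - σ) ^ 2 + t ^ 2))) := by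
        field_simp
        norm_num
    _ ≤ _ := by gcongr

end MSQA

open MSQA in
theorem msq : MSQ := by
  rintro hM hP ⟨C, hC, hD⟩
  refine ⟨352 * C, Real.exp 10, by positivity, fun X y hX hy => ?_⟩
  have hX1 : 11 ≤ X := by linarith [Real.add_one_le_exp 10]
  have hX0 : 0 < X := by linarith
  have hl : 10 ≤ Real.log X := (Real.le_log_iff_exp_le hX0).2 hX
  have hy1 : |y| ≤ 1 / 5 := hy.trans (by rw [div_le_div_iff₀ (by linarith) (by norm_num)]; linarith)
  obtain ⟨hy2, hy3⟩ := abs_le.1 hy1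
  obtain ⟨η, hη⟩ : ∃ η : ℝ, η = 1 / (4 * X) := ⟨_, rfl⟩
  have hη0 : 0 < η := by rw [hη]; positivity
  have hlog : Real.log (1 / η) ≤ 2 * Real.log X := by
    rw [hη, one_div_one_div, Real.log_mul (by norm_num) hX0.ne', two_mul]
    exact add_le_add_left (Real.log_le_log (by norm_num) (by linarith)) _
  obtain ⟨d1, d2⟩ := hD η (1 / 2 - y) hη0
    (by rw [hη]; exact one_div_le_one_div_of_le (by norm_num) (by linarith)) (by linarith)
    (by linarith) (by
      rw [sub_sub_cancel_left, abs_neg]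
      refine (mul_le_mul_of_nonneg_left hlog (abs_nonneg _)).trans ?_
      rw [le_div_iff₀ (by linarith)] at hy
      linarith)
  have f := ft hM (σ := 1 / 2 - y) (by linarith) (by linarith) η
  have hF : Integrable fun u : ℝ => (fr (u + η) - fr u) * Real.exp (-(1 / 2 - y) * u) := by
    refine (f 0).1.re.congr (ae_of_all _ fun u => ?_)
    simp only [ofReal_zero, mul_zero, zero_mul, neg_zero, exp_zero, mul_one, RCLike.re_to_complex,
      ofReal_re]
  have hp := hP _ X hX0 hF d1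
  have ez : ∀ t : ℝ, riemannZeta₁ (((1 / 2 - y : ℝ) : ℂ) + I * t) = z1 (t + y * I) := fun t => by
    rw [z1]
    congr 1
    push_cast
    linear_combination (-(y : ℂ)) * I_mul_I
  simp only [fun t => (f t).2, ez] at hp
  have cz : Continuous fun t : ℝ => z1 (t + y * I) := z1_diff.continuous.comp (by fun_prop)
  have c1 : Continuous fun t : ℝ => ‖z1 (t + y * I)‖ ^ 2 / (1 + t ^ 2) :=
    (cz.norm.pow 2).div (by fun_prop) fun t => by positivity
  have c2 : Continuous fun t : ℝ => ‖(exp (η * (((1 / 2 - y : ℝ) : ℂ) + I * t)) - 1) *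
      z1 (t + y * I) / ((((1 / 2 - y : ℝ) : ℂ) + I * t) *
        (1 - (((1 / 2 - y : ℝ) : ℂ) + I * t)))‖ ^ 2 := by
    refine (Continuous.div (Continuous.mul (by fun_prop) cz) (by fun_prop) fun t => ?_).norm.pow 2
    refine mul_ne_zero (fun h => ?_) fun h => ?_
    · have := congrArg Complex.re h
      simp only [add_re, ofReal_re, mul_re, I_re, zero_mul, I_im, ofReal_im, mul_zero, sub_self,
        add_zero, zero_re] at this
      linarith
    · have := congrArg Complex.re h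
      simp only [sub_re, one_re, add_re, ofReal_re, mul_re, I_re, zero_mul, I_im, ofReal_im,
        mul_zero, sub_self, add_zero, zero_re] at this
      linarith
  refine (intervalIntegral.integral_mono_on (by linarith) (c1.intervalIntegrable _ _)
    ((c2.intervalIntegrable _ _).const_mul (4 / η ^ 2)) fun t ht =>
      pw _ (by linarith) (by linarith) (by linarith) hη (abs_le.2 ht)).trans ?_
  rw [intervalIntegral.integral_const_mul]
  calc _ ≤ 4 / η ^ 2 * (11 * (C * η * (2 * Real.log X))) := by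
        refine mul_le_mul_of_nonneg_left (hp.trans (mul_le_mul_of_nonneg_left (d2.trans ?_)
          (by norm_num))) (by positivity)
        exact mul_le_mul_of_nonneg_left hlog (by positivity)
    _ = _ := by
        rw [hη]
        field_simp
        norm_num

end Pool.Agent.MP_a550d9_nt.H38
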