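import Pool.Agent.MP_a550d9_nt.H38.Spec

/-!
A heavy subset without near-relations.
-/

open Complex MeasureTheory

namespace Pool.Agent.MP_a550d9_nt.H38

open H28

namespace PICKA

theorem pow_le {p g T : ℝ} {k : ℕ} (h0 : 0 ≤ p) (h1 : p ≤ 1 / 2) (hT : 1 ≤ T) (hk : 2 ≤ k)
    (hg : g ≤ k * T + 1) : p ^ (k - 1) ≤ 8 * p * Real.exp (-(g / (2 * T))) := by
  obtain ⟨m, rfl⟩ := Nat.exists_eq_add_of_le' hk
  have hq : 1 / 2 ≤ Real.exp (-(1 / 2)) := by linarith [Real.add_one_le_exp (-(1 / 2) : ℝ)]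
  have h2 : p ^ m ≤ Real.exp (-(1 / 2)) ^ m := pow_le_pow_left₀ h0 (h1.trans hq) m
  have h3 : (1 / 2 : ℝ) ^ 3 ≤ Real.exp (-(1 / 2)) ^ 3 := pow_le_pow_left₀ (by norm_num) hq 3
  have h4 : Real.exp (-(1 / 2)) ^ m * Real.exp (-(1 / 2)) ^ 3 ≤ Real.exp (-(g / (2 * T))) := by
    rw [← pow_add, ← Real.exp_nat_mul, Real.exp_le_exp, mul_neg, neg_le_neg_iff,
      div_le_iff₀ (by positivity)]
    push_cast at hg ⊢
    linarith
  have h5 := mul_le_mul h2 h3 (by norm_num) (by positivity)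
  rw [show m + 2 - 1 = m + 1 from rfl, pow_succ]
  nlinarith

/-- Few elements are the top of many edges. -/
theorem cum_half {K' δ p : ℝ} (hK : Exs K') {P E : Finset ℝ} {S : ℝ → Finset ℝ} {t : ℝ → ℝ}
    (h0 : 0 ≤ p) (h1 : p ≤ 1 / 2) (h2 : 32 * K' * p ≤ δ) (hE : ∀ g ∈ E, z1 g = 0 ∧ 0 < g)
    (hS : ∀ g ∈ E, 2 ≤ (S g).card ∧ g ≤ (S g).card * t g + 1) {j : ℕ} (hj : 2 ≤ j)
    (hP : Cum P δ j) :
    Cum (P.filter fun b => ∑ g ∈ E.filter (fun g => t g = b), p ^ ((S g).card - 1) ≤ 1 / 2)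
      (δ / 2) j := by
  have hT : (4 : ℝ) ≤ 2 ^ j := by
    have := pow_le_pow_right₀ (by norm_num : (1 : ℝ) ≤ 2) hj
    linarith
  have hlog : Real.log (2 ^ j) ≤ j := by
    rw [Real.log_pow]
    have := Real.log_le_sub_one_of_pos (two_pos : (0 : ℝ) < 2)
    have hj0 : (0 : ℝ) ≤ j := Nat.cast_nonneg j
    nlinarith
  obtain ⟨d, hd⟩ : ∃ d : ℝ → ℝ, ∀ b,
      d b = ∑ g ∈ E.filter (fun g => t g = b), p ^ ((S g).card - 1) := ⟨_, fun _ => rfl⟩
  simp only [← hd]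
  obtain ⟨Q, hQ⟩ : ∃ Q, Q = (P.filter fun b => b ≤ 2 ^ j).filter fun b => ¬ d b ≤ 1 / 2 :=
    ⟨_, rfl⟩
  have a1 : (Q.card : ℝ) * (1 / 2) ≤ ∑ b ∈ Q, d b := by
    rw [← nsmul_eq_mul]
    exact Finset.card_nsmul_le_sum Q d _ fun b hb => by
      rw [hQ] at hb
      exact (not_le.1 (Finset.mem_filter.1 hb).2).le
  have a2 : ∑ b ∈ Q, d b ≤ 8 * p * (K' * 2 ^ j * j) := by
    simp only [hd]
    rw [Finset.sum_fiberwise_eq_sum_filter]
    refine (Finset.sum_le_sum (g := fun g => 8 * p * Real.exp (-(g / (2 * 2 ^ j))))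
      fun g hg => ?_).trans ?_
    · obtain ⟨g1, g2⟩ := Finset.mem_filter.1 hg
      rw [hQ] at g2
      have g3 := (Finset.mem_filter.1 (Finset.mem_filter.1 g2).1).2
      refine pow_le h0 h1 (by linarith) (hS g g1).1 ((hS g g1).2.trans ?_)
      have := mul_le_mul_of_nonneg_left g3 (Nat.cast_nonneg (S g).card)
      linarith
    · rw [← Finset.mul_sum]
      refine mul_le_mul_of_nonneg_left ((hK.2 (2 ^ j) _ (by linarith) fun g hg =>
        hE g (Finset.mem_filter.1 hg).1).trans ?_) (by positivity)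
      exact mul_le_mul_of_nonneg_left hlog (mul_nonneg hK.1.le (by positivity))
  have a3 := Finset.card_filter_add_card_filter_not (s := P.filter fun b => b ≤ 2 ^ j)
    fun b => d b ≤ 1 / 2
  rw [← hQ, Finset.filter_comm] at a3
  have a4 := congrArg (Nat.cast : ℕ → ℝ) a3
  have a5 : 32 * K' * p * (2 ^ j * j) ≤ δ * (2 ^ j * j) :=
    mul_le_mul_of_nonneg_right h2 (by positivity)
  unfold Cum at hP ⊢
  push_cast at a4
  linarith

end PICKA

theorem pick : PICK := by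
  rintro hsp hed ⟨c, j₀, hc, hW⟩ ⟨g₀, hg₀, hg⟩ K K' hK hK'
  have k0 := hK.1
  have k1 := hK'.1
  refine ⟨c / (8 * (32 * K' + 2)), K + 1 / g₀ + 1, max j₀ 2, by positivity, by positivity,
    fun P Z J δ Δ X hδ hδ1 hΔ hX hPZ hZ hΔK hD hJ => ?_⟩
  have x1 : 1 ≤ (1 + X) ^ 4 := one_le_pow₀ (by linarith)
  have i0 : 0 < 1 / g₀ := by positivity
  have b1 : Δ * (K + 1 / g₀ + 1) ≤ 1 :=
    (mul_le_mul_of_nonneg_left (le_mul_of_one_le_right (by positivity) x1) hΔ.le).trans hΔK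
  have b2 : Δ ≤ 1 := by nlinarith
  have b3 : Δ ≤ g₀ := by
    have : Δ * (1 / g₀) ≤ 1 := by nlinarith
    rwa [mul_one_div, div_le_one hg₀] at this
  have b4 : ∀ g ∈ Z, Δ ≤ g := fun g h => b3.trans (hg g (hZ g h).1 (hZ g h).2.1)
  have b5 : ∀ g ∈ Z, ∀ g' ∈ Z, g ≠ g' → Δ ≤ |g - g'| := by
    intro g h g' h' hne
    have e1 := hK.2 g g' (hZ g h).1 (hZ g' h').1 hne
    rw [abs_of_pos (hZ g h).2.1] at e1
    have e2 : (1 + g) ^ 4 ≤ (1 + X) ^ 4 :=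
      pow_le_pow_left₀ (by linarith [(hZ g h).2.1]) (by linarith [(hZ g h).2.2]) 4
    have e3 : Δ * (K * (1 + g) ^ 4) ≤ 1 := by
      refine le_trans (mul_le_mul_of_nonneg_left ?_ hΔ.le) hΔK
      exact mul_le_mul (by linarith) e2 (pow_nonneg (by linarith [(hZ g h).2.1]) 4)
        (by positivity)
    nlinarith [mul_le_mul_of_nonneg_left e1 hΔ.le,
      mul_le_mul_of_nonneg_right e3 (abs_nonneg (g - g'))]
  obtain ⟨E, S, t, hEZ, hS, hfree⟩ := hed P Z Δ hΔ b2 hPZ b4 b5 hD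
  obtain ⟨p, hp⟩ : ∃ p, p = δ / (32 * K' + 2) := ⟨_, rfl⟩
  have p0 : 0 < p := by rw [hp]; positivity
  have p1 : p * (32 * K' + 2) = δ := by rw [hp]; field_simp
  have p2 : p ≤ 1 / 2 := by nlinarith
  obtain ⟨B, hB, hB1, hB2⟩ := hsp P
    (P.filter fun b => ∑ g ∈ E.filter (fun g => t g = b), p ^ ((S g).card - 1) ≤ 1 / 2) E S t
    (fun b => ‖cz b‖) p p0.le (by linarith) (Finset.filter_subset _ _) (fun _ => norm_nonneg _)
    (fun g h => ⟨(hS g h).1, (hS g h).2.1⟩) fun b hb => (Finset.mem_filter.1 hb).2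
  refine ⟨B, hB, b4, hfree B hB hB1, le_trans ?_ hB2⟩
  have w1 := hW _ J (δ / 2) (by positivity) (by linarith)
    (fun b hb => by
      have := hZ b (hPZ (Finset.mem_filter.1 hb).1)
      exact ⟨this.1, this.2.1⟩)
    fun j hj => ⟨(le_max_left _ _).trans (hJ j hj).1, PICKA.cum_half hK' p0.le p2 (by linarith)
      (fun g h => ⟨(hZ g (hEZ h)).1, (hZ g (hEZ h)).2.1⟩) (fun g h => (hS g h).2.2)
      ((le_max_right _ _).trans (hJ j hj).1) (hJ j hj).2⟩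
  refine le_trans ?_ (mul_le_mul_of_nonneg_left w1 (by positivity))
  rw [← mul_assoc (p / 2)]
  refine mul_le_mul_of_nonneg_right ?_ (Finset.sum_nonneg fun _ _ => by positivity)
  have s1 : √δ / 2 ≤ √(δ / 2) := Real.le_sqrt_of_sq_le (by
    rw [div_pow, Real.sq_sqrt hδ.le]; linarith)
  calc c / (8 * (32 * K' + 2)) * (δ ^ 2 * √δ) = p / 2 * (c * (δ / 2 * (√δ / 2))) := by
        rw [hp]; field_simp; ring
    _ ≤ p / 2 * (c * (δ / 2 * √(δ / 2))) := by gcongr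

end Pool.Agent.MP_a550d9_nt.H38
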