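import Pool.Agent.MP_a550d9_nt.H38.Spec
import Pool.Agent.MP_a550d9_nt.H28.GAU

/-!
The step `PLA`: a Plancherel inequality.
-/

open Complex MeasureTheory Filter

namespace Pool.Agent.MP_a550d9_nt.H38

open H28

namespace PLAA

theorem gauss {X : ℝ} (hX : 0 < X) (v : ℝ) :
    ∫ t : ℝ, (Real.exp (-(1 / (2 * X ^ 2)) * t ^ 2) : ℂ) * exp (-(I * t * v)) =
      ((2 * Real.pi * Kt X v : ℝ) : ℂ) := by
  have hX' : (X : ℂ) ≠ 0 := ofReal_ne_zero.2 hX.ne'
  have h : ∀ t : ℝ, (Real.exp (-(1 / (2 * X ^ 2)) * t ^ 2) : ℂ) * exp (-(I * t * v)) =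
      exp (-((1 / (2 * X ^ 2) : ℝ) : ℂ) * t ^ 2 + -(I * v) * t + 0) := fun t => by
    rw [ofReal_exp, ← exp_add]
    congr 1
    push_cast
    ring
  simp_rw [h]
  rw [integral_cexp_quadratic (by rw [neg_re, ofReal_re, neg_lt_zero]; positivity)]
  have e1 : ((Real.pi : ℂ) / - -((1 / (2 * X ^ 2) : ℝ) : ℂ)) ^ (1 / 2 : ℂ) =
      ((X * √(2 * Real.pi) : ℝ) : ℂ) := by
    rw [neg_neg, ← ofReal_div, show (1 / 2 : ℂ) = ((1 / 2 : ℝ) : ℂ) by push_cast; rfl,
      ← ofReal_cpow (by positivity), ← Real.sqrt_eq_rpow]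
    congr 1
    rw [show Real.pi / (1 / (2 * X ^ 2)) = X ^ 2 * (2 * Real.pi) by field_simp,
      Real.sqrt_mul (by positivity), Real.sqrt_sq hX.le]
  have e2 : (0 - (-(I * v)) ^ 2 / (4 * -((1 / (2 * X ^ 2) : ℝ) : ℂ)) : ℂ) =
      ((-(X ^ 2 * v ^ 2 / 2) : ℝ) : ℂ) := by
    rw [neg_sq, mul_pow, I_sq]
    push_cast
    field_simp
    ring
  rw [e1, e2, ← ofReal_exp, ← ofReal_mul, Kt]
  congr 1
  have h1 : 0 < √(2 * Real.pi) := by positivity
  have h2 : √(2 * Real.pi) ^ 2 = 2 * Real.pi := Real.sq_sqrt (by positivity)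
  rw [← h2]
  simp only [Real.sqrt_sq h1.le]
  field_simp

theorem sq_eq (F : ℝ → ℝ) (t : ℝ) :
    ∫ p : ℝ × ℝ, ((F p.1 * F p.2 : ℝ) : ℂ) * exp (-(I * t * (p.1 - p.2 : ℝ))) ∂volume.prod volume =
      ((‖∫ y : ℝ, (F y : ℂ) * exp (-(I * t * y))‖ ^ 2 : ℝ) : ℂ) := by
  rw [ofReal_pow, ← mul_conj', ← integral_conj, ← integral_prod_mul]
  refine integral_congr_ae (Eventually.of_forall fun p => ?_)
  simp only [map_mul, conj_ofReal, ← exp_conj, map_neg, conj_I]
  rw [mul_mul_mul_comm, ← exp_add]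
  push_cast
  congr 2
  ring

theorem Kt_symm (X a b : ℝ) : Kt X (a - b) = Kt X (b - a) := by
  rw [Kt, Kt, ← neg_sub, neg_sq]

end PLAA

open PLAA

theorem pla : PLA := by
  intro F X hX hF hF2
  set G : ℝ → ℝ := fun t => ‖∫ y : ℝ, (F y : ℂ) * exp (-(I * t * y))‖ ^ 2 with hG
  set w : ℝ → ℝ := fun t => Real.exp (-(1 / (2 * X ^ 2)) * t ^ 2) with hw
  have hwi : Integrable w := integrable_exp_neg_mul_sq (by positivity)
  have h1 : Integrable (Function.uncurry fun (t : ℝ) (p : ℝ × ℝ) => (w t : ℂ) *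
      (((F p.1 * F p.2 : ℝ) : ℂ) * exp (-(I * t * (p.1 - p.2 : ℝ)))))
      (volume.prod (volume.prod volume)) := by
    have h2 := (hwi.ofReal.mul_prod (hF.mul_prod hF).ofReal).mul_bdd (c := 1)
      (g := fun z : ℝ × ℝ × ℝ => exp (-(I * z.1 * (z.2.1 - z.2.2 : ℝ))))
      (Continuous.aestronglyMeasurable (by fun_prop)) (Eventually.of_forall fun z => by
        rw [norm_exp]; simp)
    exact h2.congr (Eventually.of_forall fun z => mul_assoc _ _ _)
  have h2 : ∀ t : ℝ, ∫ p : ℝ × ℝ, (w t : ℂ) * (((F p.1 * F p.2 : ℝ) : ℂ) *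
      exp (-(I * t * (p.1 - p.2 : ℝ)))) ∂volume.prod volume = ((w t * G t : ℝ) : ℂ) := fun t => by
    rw [integral_const_mul, sq_eq, ofReal_mul]
  have h3 : ∀ p : ℝ × ℝ, ∫ t : ℝ, (w t : ℂ) * (((F p.1 * F p.2 : ℝ) : ℂ) *
      exp (-(I * t * (p.1 - p.2 : ℝ)))) =
      ((F p.1 * F p.2 * (2 * Real.pi * Kt X (p.1 - p.2)) : ℝ) : ℂ) := fun p => by
    simp_rw [mul_left_comm (w _ : ℂ)]
    rw [integral_const_mul, gauss hX, ← ofReal_mul]
  have h4 := integral_integral_swap h1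
  have h5 := h1.integral_prod_left
  have h6 := h1.integral_prod_right
  simp only [Function.uncurry, h2, h3] at h4 h5 h6
  rw [integral_complex_ofReal, integral_complex_ofReal, ofReal_inj] at h4
  have h5' : Integrable fun t => w t * G t := by simpa using h5.re
  have h6' : Integrable (fun p : ℝ × ℝ => F p.1 * F p.2 * (2 * Real.pi * Kt X (p.1 - p.2)))
      (volume.prod volume) := h6.re.congr (Eventually.of_forall fun p => ofReal_re _)
  have k1 : Integrable (fun p : ℝ × ℝ => F p.2 ^ 2 * Kt X (p.1 - p.2)) (volume.prod volume) :=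
    hF2.convolution_integrand (ContinuousLinearMap.mul ℝ ℝ) (Gau.K_int hX)
  have k2 : Integrable (fun p : ℝ × ℝ => F p.1 ^ 2 * Kt X (p.1 - p.2)) (volume.prod volume) :=
    k1.swap.congr (Eventually.of_forall fun p => by simp [Kt_symm X p.1])
  have k3 : ∫ p : ℝ × ℝ, F p.2 ^ 2 * Kt X (p.1 - p.2) ∂volume.prod volume = ∫ y, F y ^ 2 := by
    rw [integral_prod_symm _ k1]
    simp only [integral_const_mul, integral_sub_right_eq_self (Kt X), Gau.K_val hX, mul_one]
  have k4 : ∫ p : ℝ × ℝ, F p.1 ^ 2 * Kt X (p.1 - p.2) ∂volume.prod volume = ∫ y, F y ^ 2 := by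
    rw [integral_prod _ k2]
    simp only [integral_const_mul, integral_sub_left_eq_self (Kt X), Gau.K_val hX, mul_one]
  have k5 : ∫ t, w t * G t ≤ Real.pi * (∫ y, F y ^ 2) + Real.pi * ∫ y, F y ^ 2 := by
    rw [h4]
    nth_rewrite 1 [← k4]
    rw [← k3, ← integral_const_mul, ← integral_const_mul,
      ← integral_add (k2.const_mul _) (k1.const_mul _)]
    refine integral_mono h6' ((k2.const_mul _).add (k1.const_mul _)) fun p => ?_
    have a1 := mul_nonneg (mul_nonneg Real.pi_pos.le (Gau.Kt_nonneg hX (p.1 - p.2)))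
      (sq_nonneg (F p.1 - F p.2))
    beta_reduce
    linarith
  have e1 : Real.exp (1 / 2) ≤ 17 / 10 := by
    refine abs_le_of_sq_le_sq' ?_ (by norm_num) |>.2
    rw [← Real.exp_nat_mul]
    norm_num
    linarith [Real.exp_one_lt_d9]
  have k6 : ∫ t in (-X)..X, G t ≤ 17 / 10 * ∫ t, w t * G t := by
    rw [intervalIntegral.integral_of_le (by linarith), ← integral_const_mul]
    refine le_trans (integral_mono_of_nonneg (Eventually.of_forall fun t => by positivity)
      (h5'.const_mul (17 / 10)).integrableOn ?_) (setIntegral_le_integral (h5'.const_mul _)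
        (Eventually.of_forall fun t => by positivity))
    filter_upwards [ae_restrict_mem measurableSet_Ioc] with t ht
    have a1 : t ^ 2 ≤ X ^ 2 := sq_le_sq' ht.1.le ht.2
    have a2 : 1 ≤ Real.exp (1 / 2) * w t := by
      rw [← Real.exp_add]
      refine Real.one_le_exp ?_
      have : 1 / (2 * X ^ 2) * t ^ 2 ≤ 1 / 2 := by
        rw [div_mul_eq_mul_div, div_le_div_iff₀ (by positivity) (by positivity)]
        linarith
      linarith
    have a3 : 0 ≤ G t := by positivity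
    have a4 : 0 ≤ w t := by positivity
    nlinarith [mul_le_mul_of_nonneg_right (a2.trans (mul_le_mul_of_nonneg_right e1 a4)) a3]
  have k7 : 0 ≤ ∫ y, F y ^ 2 := integral_nonneg fun y => by positivity
  nlinarith [Real.pi_lt_d2]

end Pool.Agent.MP_a550d9_nt.H38
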