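import Pool.Agent.MP_a550d9_nt.H38.Fin

/-! The rank of the ordinates: a greedy basis. -/

namespace Pool.Agent.MP_a550d9_nt.H38

open H28 Submodule

/-- The dimension over `ℚ` of the span of the ordinates in `(0, 2 ^ j]`. -/
noncomputable def rk (j : ℕ) : ℕ :=
  Module.finrank ℚ (span ℚ {v : ℝ | z1 v = 0 ∧ 0 < v ∧ v ≤ 2 ^ j})

theorem ext_basis (P : Finset ℝ) (m : ℕ) (h1 : ∀ p ∈ P, z1 p = 0 ∧ 0 < p ∧ p ≤ 2 ^ m)
    (h2 : LinearIndepOn ℚ id (P : Set ℝ)) : ∃ Q : Finset ℝ, P ⊆ Q ∧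
      (∀ p ∈ Q, z1 p = 0 ∧ 0 < p ∧ p ≤ 2 ^ m) ∧ LinearIndepOn ℚ id (Q : Set ℝ) ∧
      rk m ≤ (Q.filter fun p => p ≤ 2 ^ m).card := by
  obtain ⟨b, b1, b2, b3, b4⟩ := exists_linearIndepOn_id_extension h2
    (t := {v : ℝ | z1 v = 0 ∧ 0 < v ∧ v ≤ 2 ^ m}) h1
  have hf : b.Finite := (zs_fin (2 ^ m)).subset fun v hv =>
    ⟨(b1 hv).1, by rw [abs_of_pos (b1 hv).2.1]; exact (b1 hv).2.2⟩
  lift b to Finset ℝ using hf
  refine ⟨b, b2, b1, b4, ?_⟩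
  rw [Finset.filter_true_of_mem fun p hp => (b1 hp).2.2]
  exact (finrank_mono (span_le.2 b3)).trans (finrank_span_finset_le_card b)

theorem greedy (m : ℕ) : ∃ P : Finset ℝ, (∀ p ∈ P, z1 p = 0 ∧ 0 < p ∧ p ≤ 2 ^ m) ∧
    LinearIndepOn ℚ id (P : Set ℝ) ∧ ∀ j ≤ m, rk j ≤ (P.filter fun p => p ≤ 2 ^ j).card := by
  induction m with
  | zero =>
    obtain ⟨Q, -, h1, h2, h3⟩ := ext_basis ∅ 0 (by simp) (by simp)
    exact ⟨Q, h1, h2, fun j hj => by rwa [Nat.le_zero.1 hj]⟩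
  | succ m ih =>
    obtain ⟨P, a1, a2, a3⟩ := ih
    obtain ⟨Q, h0, h1, h2, h3⟩ := ext_basis P (m + 1) (fun p hp => ⟨(a1 p hp).1, (a1 p hp).2.1,
      (a1 p hp).2.2.trans (pow_le_pow_right₀ one_le_two m.le_succ)⟩) a2
    refine ⟨Q, h1, h2, fun j hj => ?_⟩
    rcases hj.lt_or_eq with h | rfl
    · exact (a3 j (by omega)).trans (Finset.card_le_card (Finset.filter_subset_filter _ h0))
    · exact h3

/-- A one-sided bound for `M` forces the rank of the ordinates to be small at most scales. -/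
theorem rank_of (hz : OneSide → Master) {e C : ℝ} (he : e = 1 ∨ e = -1)
    (H : ∀ N : ℕ, e * Mer N ≤ C * √N) : ∃ K : ℝ, ∀ (J : Finset ℕ) (δ : ℝ), 0 < δ → δ ≤ 1 →
    (∀ j ∈ J, δ * 2 ^ j * j ≤ rk j) → δ ^ 2 * √δ * ∑ j ∈ J, 1 / √(j : ℝ) ≤ K := by
  obtain ⟨K, hK⟩ := fin2 hz he H
  refine ⟨K, fun J δ d0 d1 hJ => ?_⟩
  obtain ⟨P, a1, a2, a3⟩ := greedy (J.sup id)
  refine hK P J δ d0 d1 (fun p hp => ⟨(a1 p hp).1, (a1 p hp).2.1⟩) (fun c _ h0 p hp => ?_)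
    fun j hj => (hJ j hj).trans (Nat.cast_le.2 (a3 j (Finset.le_sup (f := id) hj)))
  have := linearIndepOn_iff'.1 a2 P (fun p => (c p : ℚ)) subset_rfl
    (by simpa [Rat.smul_def] using h0) p hp
  exact_mod_cast this

end Pool.Agent.MP_a550d9_nt.H38
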