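import Pool.Agent.MP_a550d9_nt.H38.Spec

/-! Spacing of the zeros from the lower bound for the derivative. -/

open Complex MeasureTheory

namespace Pool.Agent.MP_a550d9_nt.H38

open H28

namespace SEPA

/-- The derivative at a zero is small when another zero is close. -/
theorem deriv_le {f : ℂ → ℂ} (hf : Differentiable ℂ f) {v w : ℂ} {M : ℝ} (hv : f v = 0)
    (hw : f w = 0) (hvw : v ≠ w) (hd : ‖v - w‖ ≤ 1 / 16)
    (hM : ∀ z ∈ Metric.sphere v (1 / 8), ‖f z‖ ≤ M) : ‖deriv f v‖ ≤ ‖v - w‖ * (128 * M) := by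
  have hg : Differentiable ℂ (dslope f w) := by
    rw [← differentiableOn_univ, Complex.differentiableOn_dslope Filter.univ_mem]
    exact hf.differentiableOn
  have e : ∀ z, f z = (z - w) * dslope f w z := fun z => by
    have := sub_smul_dslope f w z
    rw [hw, sub_zero, smul_eq_mul] at this
    exact this.symm
  have h0 : dslope f w v = 0 := by
    have := e v
    rw [hv] at this
    exact (mul_eq_zero.1 this.symm).resolve_left (sub_ne_zero.2 hvw)
  have h1 : HasDerivAt (fun z => (z - w) * dslope f w z)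
      (1 * dslope f w v + (v - w) * deriv (dslope f w) v) v :=
    ((hasDerivAt_id v).sub_const w).mul (hg v).hasDerivAt
  rw [← funext e, h0, mul_zero, zero_add] at h1
  rw [h1.deriv, norm_mul]
  refine mul_le_mul_of_nonneg_left ?_ (norm_nonneg _)
  have h2 := Complex.norm_deriv_le_of_forall_mem_sphere_norm_le (c := v) (R := 1 / 8)
    (C := 16 * M) (by norm_num) hg.diffContOnCl fun z hz => by
      have h3 := hM z hz
      have h4 : ‖z - v‖ = 1 / 8 := by simpa [dist_eq_norm] using hz
      have h5 := norm_sub_norm_le (z - v) (w - v)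
      rw [sub_sub_sub_cancel_right, h4, norm_sub_rev w v] at h5
      rw [e z, norm_mul] at h3
      nlinarith [norm_nonneg (dslope f w z)]
  linarith

end SEPA

theorem sep : SEP := by
  intro C hC
  obtain ⟨C1, h1, hz⟩ := z1_le
  have hC0 := hC.pos
  refine ⟨16 + 512 * C * C1, by positivity, fun v w hv hw hvw => ?_⟩
  have ha : 1 ≤ 1 + |v| := by linarith [abs_nonneg v]
  have hb : 1 ≤ (1 + |v|) ^ 4 := one_le_pow₀ ha
  have hc : 0 ≤ (1 + |v|) ^ 4 * |v - w| := by positivity
  have hd : 0 ≤ C * C1 * ((1 + |v|) ^ 4 * |v - w|) := by positivity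
  by_cases h : |v - w| ≤ 1 / 16
  · have e : ‖(v : ℂ) - w‖ = |v - w| := by rw [← ofReal_sub, norm_real, Real.norm_eq_abs]
    have h2 := SEPA.deriv_le z1_diff (M := C1 * (2 * (1 + |v|)) ^ 2) hv hw
      (fun e => hvw (ofReal_injective e)) (e ▸ h) fun z hz' => by
        have h4 : ‖z - v‖ = 1 / 8 := by simpa [dist_eq_norm] using hz'
        have h5 := (abs_le.1 (abs_im_le_norm (z - v))).2
        have h6 := norm_add_le (z - v) v
        rw [sub_add_cancel, h4, norm_real, Real.norm_eq_abs] at h6
        rw [h4, sub_im, ofReal_im] at h5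
        refine (hz z (by linarith)).trans (mul_le_mul_of_nonneg_left ?_ h1.le)
        exact pow_le_pow_left₀ (by positivity) (by linarith) 2
    rw [e] at h2
    have h3 := (hC.res v hv).trans (mul_le_mul_of_nonneg_left h2 (by positivity))
    nlinarith
  · have h2 : 1 * (1 / 16) ≤ (1 + |v|) ^ 4 * |v - w| :=
      mul_le_mul hb (not_le.1 h).le (by norm_num) (by positivity)
    nlinarith

end Pool.Agent.MP_a550d9_nt.H38
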