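import Pool.Agent.MP_a550d9_nt.H38.Spec

/-!
A random subset, with the bad points removed, keeps a fixed share of the weight.
-/

namespace Pool.Agent.MP_a550d9_nt.H38

open Finset

namespace SPARSEA

noncomputable def mu (P : Finset ℝ) (p : ℝ) (A : Finset ℝ) : ℝ :=
  (∏ _x ∈ A, p) * ∏ _x ∈ P \ A, (1 - p)

noncomputable def ind (S A : Finset ℝ) : ℝ := if S ⊆ A then 1 else 0

theorem ind_nonneg (S A : Finset ℝ) : 0 ≤ ind S A := by
  unfold ind
  split_ifs <;> norm_num

theorem mu_nonneg (P : Finset ℝ) {p : ℝ} (h0 : 0 ≤ p) (h1 : p ≤ 1) (A : Finset ℝ) :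
    0 ≤ mu P p A :=
  mul_nonneg (prod_nonneg fun _ _ => h0) (prod_nonneg fun _ _ => sub_nonneg.2 h1)

theorem mu_sub (P : Finset ℝ) (p : ℝ) {S : Finset ℝ} (hS : S ⊆ P) :
    ∑ A ∈ P.powerset, mu P p A * ind S A = p ^ S.card := by
  have h := prod_add (fun _ : ℝ => p) (fun x => if x ∈ S then 0 else 1 - p) P
  have e1 : ∏ x ∈ P, (p + if x ∈ S then 0 else 1 - p) = p ^ S.card := by
    rw [← prod_const, ← prod_subset hS (f := fun x => p + if x ∈ S then 0 else 1 - p)
      fun x _ hx => by simp [hx]]
    exact prod_congr rfl fun x hx => by simp [hx]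
  rw [← e1, h]
  refine sum_congr rfl fun A _ => ?_
  unfold mu ind
  split_ifs with hA
  · rw [mul_one]
    congr 1
    exact prod_congr rfl fun x hx => by rw [if_neg fun h' => (mem_sdiff.1 hx).2 (hA h')]
  · obtain ⟨x, hx, hx'⟩ := not_subset.1 hA
    rw [mul_zero, prod_eq_zero (f := fun x => if x ∈ S then 0 else 1 - p)
      (mem_sdiff.2 ⟨hS hx, hx'⟩) (if_pos hx), mul_zero]

end SPARSEA

open SPARSEA in
theorem sparse : SPARSE := by
  classical
  intro P G E S t w p h0 h1 hG hw hS hb
  let B : Finset ℝ → Finset ℝ := fun A => A.filter fun b => ∀ g ∈ E, t g = b → ¬ S g ⊆ A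
  have low : ∀ A, ∑ b ∈ G, w b * (ind {b} A - ∑ g ∈ E.filter (fun g => t g = b), ind (S g) A) ≤
      ∑ b ∈ B A, w b := fun A => by
    calc _ ≤ ∑ b ∈ G, if b ∈ B A then w b else 0 := by
          refine sum_le_sum fun b _ => ?_
          have hs : 0 ≤ ∑ g ∈ E.filter (fun g => t g = b), ind (S g) A :=
            sum_nonneg fun g _ => ind_nonneg _ _
          have hi : ind {b} A ≤ 1 := by
            unfold ind
            split_ifs <;> norm_num
          split_ifs with hm
          · exact mul_le_of_le_one_right (hw b) (by linarith)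
          · refine mul_nonpos_of_nonneg_of_nonpos (hw b) (sub_nonpos.2 ?_)
            by_cases hA : b ∈ A
            · have : ∃ g ∈ E, t g = b ∧ S g ⊆ A := by
                by_contra hc
                exact hm (mem_filter.2 ⟨hA, fun g hg e h' => hc ⟨g, hg, e, h'⟩⟩)
              obtain ⟨g, hg, e, h'⟩ := this
              refine hi.trans (le_trans (le_of_eq ?_)
                (single_le_sum (f := fun g => ind (S g) A) (fun g _ => ind_nonneg _ _)
                  (mem_filter.2 ⟨hg, e⟩)))
              simp [ind, h']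
            · refine le_trans (le_of_eq ?_) hs
              simp [ind, hA]
      _ = ∑ b ∈ G ∩ B A, w b := sum_ite_mem _ _ _
      _ ≤ _ := sum_le_sum_of_subset_of_nonneg inter_subset_right fun b _ _ => hw b
  have avg : p / 2 * ∑ b ∈ G, w b ≤ ∑ A ∈ P.powerset, mu P p A * ∑ b ∈ B A, w b := by
    refine le_trans ?_ (sum_le_sum fun A _ =>
      mul_le_mul_of_nonneg_left (low A) (mu_nonneg P h0 h1 A))
    simp only [mul_sum]
    rw [sum_comm]
    refine sum_le_sum fun b hbG => ?_
    have e : ∑ A ∈ P.powerset, mu P p A *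
        (w b * (ind {b} A - ∑ g ∈ E.filter (fun g => t g = b), ind (S g) A)) =
        w b * (p - p * ∑ g ∈ E.filter (fun g => t g = b), p ^ ((S g).card - 1)) := by
      have e1 := mu_sub P p (singleton_subset_iff.2 (hG hbG))
      rw [card_singleton, pow_one] at e1
      have e2 : p * ∑ g ∈ E.filter (fun g => t g = b), p ^ ((S g).card - 1) =
          ∑ A ∈ P.powerset, mu P p A * ∑ g ∈ E.filter (fun g => t g = b), ind (S g) A := by
        simp only [mul_sum]
        rw [sum_comm]
        refine sum_congr rfl fun g hg => ?_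
        have hg' := hS g (mem_filter.1 hg).1
        rw [mu_sub P p hg'.1, ← pow_succ', Nat.sub_add_cancel (card_pos.2 ⟨_, hg'.2⟩)]
      rw [e2]
      nth_rewrite 2 [← e1]
      rw [← sum_sub_distrib, mul_sum]
      exact sum_congr rfl fun A _ => by ring
    rw [e, mul_comm]
    refine mul_le_mul_of_nonneg_left ?_ (hw b)
    have := mul_le_mul_of_nonneg_left (hb b hbG) h0
    linarith
  obtain ⟨A, hA, hmax⟩ := exists_max_image P.powerset (fun A => ∑ b ∈ B A, w b)
    ⟨∅, empty_mem_powerset P⟩
  refine ⟨B A, (filter_subset _ _).trans (mem_powerset.1 hA), fun g hg hsub => ?_, avg.trans ?_⟩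
  · exact (mem_filter.1 (hsub (hS g hg).2)).2 g hg rfl (hsub.trans (filter_subset _ _))
  · have e := mu_sub P p (empty_subset P)
    simp only [ind, empty_subset, if_true, mul_one, card_empty, pow_zero] at e
    calc _ ≤ ∑ A' ∈ P.powerset, mu P p A' * ∑ b ∈ B A, w b :=
          sum_le_sum fun A' hA' => mul_le_mul_of_nonneg_left (hmax A' hA') (mu_nonneg P h0 h1 A')
      _ = _ := by rw [← sum_mul, e, one_mul]

end Pool.Agent.MP_a550d9_nt.H38
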