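import Pool.Agent.MP_a550d9_nt.H38.Spec

/-!
Many zeros carry much weight.
-/

open Finset

namespace Pool.Agent.MP_a550d9_nt.H38

open H28

namespace WTA

theorem tang {x a : ℝ} (hx : 0 < x) (ha : 0 < a) : 3 / (2 * a) - x ^ 2 / (2 * a ^ 3) ≤ 1 / x := by
  have h : 1 / x - (3 / (2 * a) - x ^ 2 / (2 * a ^ 3)) = (x - a) ^ 2 * (x + 2 * a) / (2 * a ^ 3 * x) := by
    field_simp
    ring
  rw [← sub_nonneg, h]
  positivity

theorem inv_sum {G : Finset ℝ} {x : ℝ → ℝ} {a : ℝ} (ha : 0 < a) (hx : ∀ b ∈ G, 0 < x b)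
    (h : ∑ b ∈ G, x b ^ 2 ≤ G.card * a ^ 2) : G.card / a ≤ ∑ b ∈ G, 1 / x b := by
  refine le_trans ?_ (sum_le_sum fun b hb => tang (hx b hb) ha)
  rw [sum_sub_distrib, ← sum_div, ← sum_div, sum_const, nsmul_eq_mul]
  have h1 : (∑ b ∈ G, x b ^ 2) / (2 * a ^ 3) ≤ G.card * a ^ 2 / (2 * a ^ 3) := by gcongr
  have h2 : (G.card : ℝ) / a = G.card * 3 / (2 * a) - G.card * a ^ 2 / (2 * a ^ 3) := by
    field_simp
    ring
  linarith

theorem tail (J : Finset ℕ) {b : ℝ} (hb : 0 < b) :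
    ∑ j ∈ J.filter (fun j => b ≤ 2 ^ j), (1 + b) / 2 ^ j ≤ 4 := by
  rcases (J.filter fun j => b ≤ 2 ^ j).eq_empty_or_nonempty with h | h
  · rw [h]
    norm_num
  obtain ⟨m, hm, h1⟩ := exists_min_image _ id h
  obtain ⟨n, -, h2⟩ := exists_max_image _ id h
  have h3 : (1 : ℝ) ≤ 2 ^ m := one_le_pow₀ one_le_two
  have h4 : 1 + b ≤ 2 * 2 ^ m := by linarith [(mem_filter.1 hm).2]
  calc ∑ j ∈ J.filter (fun j => b ≤ 2 ^ j), (1 + b) / 2 ^ j
      ≤ ∑ j ∈ Ico m (n + 1), (1 + b) / 2 ^ j :=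
        sum_le_sum_of_subset_of_nonneg
          (fun j hj => mem_Ico.2 ⟨h1 j hj, Nat.lt_succ_of_le (h2 j hj)⟩) fun _ _ _ => by positivity
    _ = (1 + b) * ∑ j ∈ Ico m (n + 1), (1 / 2 : ℝ) ^ j := by
        rw [mul_sum]
        exact sum_congr rfl fun j _ => by rw [one_div_pow, mul_one_div]
    _ ≤ 2 * 2 ^ m * ((1 / 2) ^ m / (1 - 1 / 2)) := by
        gcongr
        exact geom_sum_Ico_le_of_lt_one (by norm_num) (by norm_num)
    _ = 4 := by
        rw [one_div_pow]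
        field_simp
        norm_num

end WTA

theorem wt : WT := by
  rintro ⟨C, T₀, hC, hM⟩ C' hZ
  obtain ⟨j₁, hj₁⟩ := pow_unbounded_of_one_lt T₀ (one_lt_two (α := ℝ))
  have hK : 0 < √C := Real.sqrt_pos.2 hC
  refine ⟨1 / (4 * √C), max j₁ 1, by positivity, fun G J δ h0 _ hG hJ => ?_⟩
  have hδ : 0 < √δ := Real.sqrt_pos.2 h0
  have hd : ∀ b ∈ G, 0 < ‖deriv z1 b‖ := fun b hb => by
    refine (norm_nonneg _).lt_of_ne fun e => ?_
    have := hZ.res b (hG b hb).1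
    rw [← e, mul_zero] at this
    linarith
  have key : ∀ j ∈ J, δ * √δ / √C * (1 / √(j : ℝ)) ≤
      ∑ b ∈ G, if b ≤ 2 ^ j then (1 + b) / 2 ^ j * ‖cz b‖ else 0 := by
    intro j hj
    obtain ⟨h1, h2⟩ := hJ j hj
    rw [max_le_iff] at h1
    have j0 : (0 : ℝ) < j := by exact_mod_cast h1.2
    have js : 0 < √(j : ℝ) := Real.sqrt_pos.2 j0
    have hT : (0 : ℝ) < 2 ^ j := by positivity
    have h3 := hM (2 ^ j) (hj₁.le.trans (pow_le_pow_right₀ one_le_two h1.1))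
    have h4 : Real.log (2 ^ j) ≤ j := by
      rw [Real.log_pow]
      exact mul_le_of_le_one_right j0.le (by linarith [Real.log_two_lt_d9])
    have h5 : 0 ≤ Real.log (2 ^ j) := Real.log_nonneg (one_le_pow₀ one_le_two)
    have h6 : (√C * j * √(j : ℝ) / √δ) ^ 2 = C * j ^ 3 / δ := by
      rw [div_pow, mul_pow, mul_pow, Real.sq_sqrt hC.le, Real.sq_sqrt j0.le, Real.sq_sqrt h0.le]
      ring
    have h7 := WTA.inv_sum (G := G.filter fun b => b ≤ 2 ^ j)
      (x := fun b => ‖deriv z1 b‖ / (1 + b)) (a := √C * j * √(j : ℝ) / √δ) (by positivity)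
      (fun b hb => div_pos (hd b (mem_filter.1 hb).1)
        (by linarith [(hG b (mem_filter.1 hb).1).2])) (by
      calc ∑ b ∈ G.filter (fun b => b ≤ 2 ^ j), (‖deriv z1 b‖ / (1 + b)) ^ 2
          = ∑ b ∈ G.filter (fun b => b ≤ 2 ^ j), ‖deriv z1 b‖ ^ 2 / (1 + |b|) ^ 2 :=
            sum_congr rfl fun b hb => by
              rw [div_pow, abs_of_pos (hG b (mem_filter.1 hb).1).2]
        _ ≤ ∑ b ∈ ZS (2 ^ j), ‖deriv z1 b‖ ^ 2 / (1 + |b|) ^ 2 :=
            sum_le_sum_of_subset_of_nonneg (fun b hb => by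
              obtain ⟨k1, k2⟩ := mem_filter.1 hb
              exact mem_ZS.2 ⟨(hG b k1).1, by rwa [abs_of_pos (hG b k1).2]⟩)
              fun _ _ _ => by positivity
        _ ≤ C * 2 ^ j * (j : ℝ) ^ 4 := h3.trans (by gcongr)
        _ = δ * 2 ^ j * j * (C * j ^ 3 / δ) := by field_simp
        _ ≤ _ := by
            rw [h6]
            exact mul_le_mul_of_nonneg_right h2 (by positivity))
    calc δ * √δ / √C * (1 / √(j : ℝ))
        = δ * 2 ^ j * j / (√C * j * √(j : ℝ) / √δ) / 2 ^ j := by field_simp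
      _ ≤ (∑ b ∈ G.filter (fun b => b ≤ 2 ^ j), 1 / (‖deriv z1 b‖ / (1 + b))) / 2 ^ j :=
          div_le_div_of_nonneg_right
            ((div_le_div_of_nonneg_right h2 (by positivity)).trans h7) hT.le
      _ = _ := by
          rw [sum_div, sum_filter]
          refine sum_congr rfl fun b _ => ?_
          split_ifs
          · rw [norm_cz, one_div_div]
            ring
          · rfl
  have h1 := sum_le_sum key
  rw [← mul_sum, sum_comm] at h1
  have h2 : ∑ b ∈ G, ∑ j ∈ J, (if b ≤ 2 ^ j then (1 + b) / 2 ^ j * ‖cz b‖ else 0) ≤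
      ∑ b ∈ G, 4 * ‖cz b‖ := sum_le_sum fun b hb => by
    rw [← sum_filter, ← sum_mul]
    exact mul_le_mul_of_nonneg_right (WTA.tail J (hG b hb).2) (norm_nonneg _)
  rw [← mul_sum] at h2
  have h3 : 1 / (4 * √C) * (δ * √δ) * ∑ j ∈ J, 1 / √(j : ℝ) =
      δ * √δ / √C * (∑ j ∈ J, 1 / √(j : ℝ)) / 4 := by field_simp
  linarith

end Pool.Agent.MP_a550d9_nt.H38
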