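import Pool.Agent.MP_a550d9_nt.H28.Glue
import Pool.Agent.MP_a550d9_nt.H38.Rank
import Pool.Agent.MP_a550d9_nt.H38.MEL
import Pool.Agent.MP_a550d9_nt.H38.PLA
import Pool.Agent.MP_a550d9_nt.H38.DIF
import Pool.Agent.MP_a550d9_nt.H38.MSQ
import Pool.Agent.MP_a550d9_nt.H38.DISC
import Pool.Agent.MP_a550d9_nt.H38.MOM
import Pool.Agent.MP_a550d9_nt.H38.SEP
import Pool.Agent.MP_a550d9_nt.H38.SPARSE
import Pool.Agent.MP_a550d9_nt.H38.EXS
import Pool.Agent.MP_a550d9_nt.H38.EDGE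
import Pool.Agent.MP_a550d9_nt.H38.WT
import Pool.Agent.MP_a550d9_nt.H38.PICK
import Pool.Agent.MP_a550d9_nt.H38.MASTER

/-! The steps put together. -/

namespace Pool.Agent.MP_a550d9_nt.H38

open H28

theorem master_of (h : OneSide) : Master := by
  obtain ⟨C, Z⟩ := zd_of h
  obtain ⟨C', p, F⟩ := formb lap left expl C Z
  obtain ⟨K, h1⟩ := sep C Z
  obtain ⟨K', h2⟩ := exs C Z
  exact master nz gau riesz (pick sparse edge (wt (mom disc (msq mel pla dif)) C Z) FinB.gap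
    K K' h1 h2) C C' Z p F

/-- If `M` is bounded on one side by `C √N`, the rank of the ordinates up to `2 ^ j` is below
`δ 2 ^ j j` for most `j`. -/
theorem rank_small {e C : ℝ} (he : e = 1 ∨ e = -1) (H : ∀ N : ℕ, e * Mer N ≤ C * √N) :
    ∃ K : ℝ, ∀ (J : Finset ℕ) (δ : ℝ), 0 < δ → δ ≤ 1 → (∀ j ∈ J, δ * 2 ^ j * j ≤ rk j) →
      δ ^ 2 * √δ * ∑ j ∈ J, 1 / √(j : ℝ) ≤ K :=
  rank_of master_of he H

end Pool.Agent.MP_a550d9_nt.H38
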